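import Pool.Agent.W122.DS.Conc
import Pool.Agent.W122.GS.Flip

/-!
# Concentration of the solution inside the good set
-/

set_option autoImplicit false
set_option linter.unusedSectionVars false

namespace Pool.Agent.W122.GS

open Pool.Agent.W122.DS Pool.Agent.W122.DS.Core

variable {V S J : Type} [Fintype V] [DecidableEq V] [Fintype S] [DecidableEq S] [Fintype J]
  [DecidableEq J]
variable {A : V → V → ℝ} {b : V → ℝ} {η : ℝ}
variable {a : V → ℝ} {Cs : ℝ} {ρ τ k : V → ℝ} {c : J → ℝ} {p v : V × J → S → ℝ}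

/-- Comparison of the solutions at two configurations. -/
lemma psi_cmp (h : Hyp A b η a Cs ρ τ k c p v) (W : V → ℝ) {l : ℝ} (hl0 : 0 ≤ l) (hl1 : l ≤ 1)
    (ω ω' : V × J → S) (hU : Good A b η (pot a c v W l ω))
    (hU' : Good A b η (pot a c v W l ω')) (x : V) :
    psi A b (pot a c v W l ω) x - psi A b (pot a c v W l ω') x
      ≤ ∑ i : V × J, (22 / 5 * (a i.1 * c i.2 * |Gr A b (pot a c v W l ω) x i.1|))
        * (if ω i ≠ ω' i then 1 else 0) := by
  rw [psi_sub h.net h.η2 hU hU' x, Fintype.sum_prod_type]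
  refine Finset.sum_le_sum fun y _ => ?_
  refine (le_abs_self _).trans ?_
  rw [abs_mul, abs_mul]
  have ha := h.a0 y
  have h1 : |pot a c v W l ω' y - pot a c v W l ω y|
      ≤ 4 * a y * ∑ j, c j * (if ω (y, j) ≠ ω' (y, j) then 1 else 0) := by
    have e : pot a c v W l ω' y - pot a c v W l ω y
        = l * (a y * ∑ j, c j * (v (y, j) (ω' (y, j)) - v (y, j) (ω (y, j)))) := by
      unfold pot dis
      have : ∑ j, c j * (v (y, j) (ω' (y, j)) - v (y, j) (ω (y, j)))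
          = ∑ j, c j * v (y, j) (ω' (y, j)) - ∑ j, c j * v (y, j) (ω (y, j)) := by
        rw [← Finset.sum_sub_distrib]
        exact Finset.sum_congr rfl fun j _ => by ring
      rw [this]
      ring
    have h2 : |∑ j, c j * (v (y, j) (ω' (y, j)) - v (y, j) (ω (y, j)))|
        ≤ 4 * ∑ j, c j * (if ω (y, j) ≠ ω' (y, j) then 1 else 0) := by
      refine (Finset.abs_sum_le_sum_abs _ _).trans ?_
      rw [Finset.mul_sum]
      refine Finset.sum_le_sum fun j _ => ?_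
      rw [abs_mul, abs_of_nonneg (h.c0 j)]
      by_cases hj : ω (y, j) = ω' (y, j)
      · rw [hj]
        simp
      · rw [if_pos hj]
        have h2 := abs_sub (v (y, j) (ω' (y, j))) (v (y, j) (ω (y, j)))
        have h3 := h.law.bdd (y, j) (ω' (y, j))
        have h4 := h.law.bdd (y, j) (ω (y, j))
        have h5 := mul_le_mul_of_nonneg_left (h2.trans (add_le_add h3 h4)) (h.c0 j)
        linarith
    rw [e, abs_mul, abs_mul, abs_of_nonneg hl0, abs_of_nonneg ha]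
    have h5 := mul_le_mul_of_nonneg_left h2 ha
    have h6 : 0 ≤ a y * |∑ j, c j * (v (y, j) (ω' (y, j)) - v (y, j) (ω (y, j)))| := by
      positivity
    nlinarith
  have h2 : |psi A b (pot a c v W l ω') y| ≤ 11 / 10 := by
    have h3 := (psi_spec h.net h.η2 hU').1 y
    have h4 := h.η1
    rw [abs_le] at h3 ⊢
    constructor <;> linarith [h3.1, h3.2]
  have hs0 : 0 ≤ ∑ j, c j * (if ω (y, j) ≠ ω' (y, j) then (1 : ℝ) else 0) :=
    Finset.sum_nonneg fun j _ => mul_nonneg (h.c0 j) (by split_ifs <;> norm_num)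
  have h3 : |pot a c v W l ω' y - pot a c v W l ω y| * |psi A b (pot a c v W l ω') y|
      ≤ (4 * a y * ∑ j, c j * (if ω (y, j) ≠ ω' (y, j) then 1 else 0)) * (11 / 10) :=
    mul_le_mul h1 h2 (abs_nonneg _) (by positivity)
  have h4 := mul_le_mul_of_nonneg_left h3 (abs_nonneg (Gr A b (pot a c v W l ω) x y))
  refine h4.trans (le_of_eq ?_)
  have h5 : ∑ j, (22 / 5 * (a y * c j * |Gr A b (pot a c v W l ω) x y|))
      * (if ω (y, j) ≠ ω' (y, j) then 1 else 0)
      = 22 / 5 * a y * |Gr A b (pot a c v W l ω) x y|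
        * ∑ j, c j * (if ω (y, j) ≠ ω' (y, j) then 1 else 0) := by
    rw [Finset.mul_sum]
    exact Finset.sum_congr rfl fun j _ => by ring
  rw [h5]
  ring

/-- From masses on letters to masses on sites. -/
lemma site_mass (h : Hyp A b η a Cs ρ τ k c p v) (q : V × J → ℝ) (hq0 : ∀ i, 0 ≤ q i)
    (hq1 : ∀ i, q i ≤ 1) : (∀ y, 0 ≤ ∑ j, c j * q (y, j)) ∧
      (∀ y, ∑ j, c j * q (y, j) ≤ ∑ j, c j) ∧
      ∑ y, (∑ j, c j * q (y, j)) ^ 2 ≤ ∑ i, q i ^ 2 := by
  refine ⟨fun y => Finset.sum_nonneg fun j _ => mul_nonneg (h.c0 j) (hq0 _),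
    fun y => Finset.sum_le_sum fun j _ => mul_le_of_le_one_right (h.c0 j) (hq1 _), ?_⟩
  rw [Fintype.sum_prod_type]
  refine Finset.sum_le_sum fun y _ => ?_
  have h1 : (∑ j, c j * q (y, j)) ^ 2 ≤ (∑ j, c j ^ 2) * ∑ j, q (y, j) ^ 2 :=
    Finset.sum_mul_sq_le_sq_mul_sq _ _ _
  have h2 : 0 ≤ ∑ j, q (y, j) ^ 2 := Finset.sum_nonneg fun j _ => sq_nonneg _
  have h3 := mul_le_mul_of_nonneg_right h.c2 h2
  linarith

lemma site_sum (U : V → ℝ) (x : V) (q : V × J → ℝ) :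
    ∑ i : V × J, (22 / 5 * (a i.1 * c i.2 * |Gr A b U x i.1|)) * q i
      = 22 / 5 * ∑ y, a y * |Gr A b U x y| * ∑ j, c j * q (y, j) := by
  rw [Fintype.sum_prod_type, Finset.mul_sum]
  refine Finset.sum_congr rfl fun y _ => ?_
  rw [Finset.mul_sum, Finset.mul_sum]
  exact Finset.sum_congr rfl fun j _ => by ring

/-- The concentration inequality inside the good set. -/
lemma conc (tal : StmTal) (h : Hyp A b η a Cs ρ τ k c p v) (W : V → ℝ) {l : ℝ} (hl0 : 0 ≤ l)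
    (hl1 : l ≤ 1) (x : V) (m r kk : ℝ)
    (hk : ∀ ω : V × J → S, Good A b η (pot a c v W l ω) → ∀ q : V → ℝ, (∀ y, 0 ≤ q y) →
      (∀ y, q y ≤ ∑ j, c j) → ∑ y, q y ^ 2 < kk →
      22 / 5 * ∑ y, a y * |Gr A b (pot a c v W l ω) x y| * q y < r) :
    Pr p (fun ω => Good A b η (pot a c v W l ω) ∧ psi A b (pot a c v W l ω) x ≤ m)
      * Pr p (fun ω => Good A b η (pot a c v W l ω) ∧ m + r ≤ psi A b (pot a c v W l ω) x)
      ≤ Real.exp (-(kk / 4)) := by
  refine tal (V × J) S p h.law.pr _ _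
    (fun ω i => 22 / 5 * (a i.1 * c i.2 * |Gr A b (pot a c v W l ω) x i.1|)) r kk ?_ ?_
  · intro ω ω' h1 h2
    refine le_trans ?_ (psi_cmp h W hl0 hl1 ω ω' h1.1 h2.1 x)
    have := h1.2
    have := h2.2
    linarith
  · intro ω h1 q h2 h3 h4
    obtain ⟨h5, h6, h7⟩ := site_mass h q h2 h3
    rw [site_sum]
    exact hk ω h1.1 _ h5 h6 (lt_of_le_of_lt h7 h4)

/-- The tail around the median. -/
lemma tail (tal : StmTal) (h : Hyp A b η a Cs ρ τ k c p v) (W : V → ℝ) {l : ℝ} (hl0 : 0 ≤ l)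
    (hl1 : l ≤ 1) (x : V) (M r kk : ℝ)
    (hY : 1 / 2 ≤ Pr p (fun ω => Good A b η (pot a c v W l ω)))
    (hM1 : Pr p (fun ω => Good A b η (pot a c v W l ω)) / 2 ≤
      Pr p (fun ω => Good A b η (pot a c v W l ω) ∧ psi A b (pot a c v W l ω) x ≤ M))
    (hM2 : Pr p (fun ω => Good A b η (pot a c v W l ω)) / 2 ≤
      Pr p (fun ω => Good A b η (pot a c v W l ω) ∧ M ≤ psi A b (pot a c v W l ω) x))
    (hk : ∀ ω : V × J → S, Good A b η (pot a c v W l ω) → ∀ q : V → ℝ, (∀ y, 0 ≤ q y) →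
      (∀ y, q y ≤ ∑ j, c j) → ∑ y, q y ^ 2 < kk →
      22 / 5 * ∑ y, a y * |Gr A b (pot a c v W l ω) x y| * q y < r) :
    Pr p (fun ω => Good A b η (pot a c v W l ω) ∧ r ≤ |psi A b (pot a c v W l ω) x - M|)
      ≤ 8 * Real.exp (-(kk / 4)) := by
  have hp := h.law.pr
  have h1 := conc tal h W hl0 hl1 x M r kk hk
  have h2 := conc tal h W hl0 hl1 x (M - r) r kk hk
  rw [sub_add_cancel] at h2
  set PA := Pr p (fun ω => Good A b η (pot a c v W l ω) ∧ psi A b (pot a c v W l ω) x ≤ M)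
  set PB := Pr p (fun ω => Good A b η (pot a c v W l ω) ∧ M ≤ psi A b (pot a c v W l ω) x)
  set P1 := Pr p (fun ω => Good A b η (pot a c v W l ω) ∧ M + r ≤ psi A b (pot a c v W l ω) x)
    with hP1
  set P2 := Pr p (fun ω => Good A b η (pot a c v W l ω) ∧ psi A b (pot a c v W l ω) x ≤ M - r)
    with hP2
  have h10 : 0 ≤ P1 := Pr_nonneg hp _
  have h20 : 0 ≤ P2 := Pr_nonneg hp _
  have h3 : 1 / 4 ≤ PA := by linarith
  have h4 : 1 / 4 ≤ PB := by linarith
  have h5 : P1 ≤ 4 * Real.exp (-(kk / 4)) := by nlinarith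
  have h6 : P2 ≤ 4 * Real.exp (-(kk / 4)) := by nlinarith
  have h7 : Pr p (fun ω => Good A b η (pot a c v W l ω) ∧ r ≤ |psi A b (pot a c v W l ω) x - M|)
      ≤ Pr p (fun ω => (Good A b η (pot a c v W l ω) ∧ M + r ≤ psi A b (pot a c v W l ω) x) ∨
        (Good A b η (pot a c v W l ω) ∧ psi A b (pot a c v W l ω) x ≤ M - r)) := by
    refine Pr_mono hp fun ω hω => ?_
    obtain ⟨hg, hr⟩ := hω
    rcases le_abs.1 hr with h8 | h8
    · exact Or.inl ⟨hg, by linarith⟩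
    · exact Or.inr ⟨hg, by linarith⟩
  have h8 := h7.trans (Pr_or hp _ _)
  rw [← hP1, ← hP2] at h8
  linarith

open Classical in
/-- The mean distance to the median. -/
lemma mean_dist (tal : StmTal) (h : Hyp A b η a Cs ρ τ k c p v) (W : V → ℝ) {l : ℝ} (hl0 : 0 ≤ l)
    (hl1 : l ≤ 1) (x : V) (M : ℝ) (hρ : 0 < ρ x)
    (hY : 1 / 2 ≤ Pr p (fun ω => Good A b η (pot a c v W l ω)))
    (hM1 : Pr p (fun ω => Good A b η (pot a c v W l ω)) / 2 ≤
      Pr p (fun ω => Good A b η (pot a c v W l ω) ∧ psi A b (pot a c v W l ω) x ≤ M))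
    (hM2 : Pr p (fun ω => Good A b η (pot a c v W l ω)) / 2 ≤
      Pr p (fun ω => Good A b η (pot a c v W l ω) ∧ M ≤ psi A b (pot a c v W l ω) x)) :
    Ex p (fun ω => if Good A b η (pot a c v W l ω) then |psi A b (pot a c v W l ω) x - M| else 0)
      ≤ 150 * √(ρ x) := by
  have hp := h.law.pr
  set σ : ℝ := 22 / 5 * √(ρ x) with hσ
  have hs0 : 0 < √(ρ x) := Real.sqrt_pos.2 hρ
  have hσ0 : 0 < σ := by positivity
  have ht : ∀ j : ℕ, Pr p (fun ω => Good A b η (pot a c v W l ω) ∧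
      ((j : ℝ) + 1) * σ ≤ |psi A b (pot a c v W l ω) x - M|)
      ≤ 8 * Real.exp (-(((j : ℝ) + 1) ^ 2 / 4)) := by
    intro j
    refine tail tal h W hl0 hl1 x M (((j : ℝ) + 1) * σ) (((j : ℝ) + 1) ^ 2) hY hM1 hM2 ?_
    intro ω hU q hq0 hq1 hq
    have h1 := h.gb.l2a _ hU x _ (fun y => Hm_Gr' h.net h.η2 hU x y)
    have h2 : (∑ y, (a y * |Gr A b (pot a c v W l ω) x y|) * q y) ^ 2
        ≤ (∑ y, (a y * |Gr A b (pot a c v W l ω) x y|) ^ 2) * ∑ y, q y ^ 2 :=
      Finset.sum_mul_sq_le_sq_mul_sq _ _ _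
    have h3 : ∑ y, (a y * |Gr A b (pot a c v W l ω) x y|) ^ 2 ≤ ρ x := by
      refine le_trans (le_of_eq (Finset.sum_congr rfl fun y _ => ?_)) h1
      rw [mul_pow, mul_pow, sq_abs]
    have h4 : (∑ y, (a y * |Gr A b (pot a c v W l ω) x y|) ^ 2) * ∑ y, q y ^ 2
        ≤ ρ x * ∑ y, q y ^ 2 :=
      mul_le_mul_of_nonneg_right h3 (Finset.sum_nonneg fun _ _ => sq_nonneg _)
    have h5 : ρ x * ∑ y, q y ^ 2 < ρ x * ((j : ℝ) + 1) ^ 2 := mul_lt_mul_of_pos_left hq hρ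
    have h6 : (∑ y, (a y * |Gr A b (pot a c v W l ω) x y|) * q y) ^ 2
        < (√(ρ x) * ((j : ℝ) + 1)) ^ 2 := by
      rw [mul_pow, Real.sq_sqrt hρ.le]
      linarith
    have h7 : ∑ y, (a y * |Gr A b (pot a c v W l ω) x y|) * q y < √(ρ x) * ((j : ℝ) + 1) :=
      lt_of_pow_lt_pow_left₀ 2 (by positivity) h6
    rw [hσ]
    linarith
  have he : ∀ j : ℕ, Real.exp (-(((j : ℝ) + 1) ^ 2 / 4)) ≤ (4 / 5) ^ (j + 1) := by
    intro j
    have h1 : Real.exp (-(1 / 4 : ℝ)) ≤ 4 / 5 := by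
      have h2 := Real.add_one_le_exp (1 / 4 : ℝ)
      have h3 : Real.exp (-(1 / 4 : ℝ)) * Real.exp (1 / 4) = 1 := by
        rw [← Real.exp_add, neg_add_cancel, Real.exp_zero]
      have h4 := Real.exp_pos (-(1 / 4 : ℝ))
      nlinarith
    calc Real.exp (-(((j : ℝ) + 1) ^ 2 / 4)) ≤ Real.exp (((j + 1 : ℕ) : ℝ) * (-(1 / 4))) := by
          apply Real.exp_le_exp.2
          push_cast
          nlinarith [(Nat.cast_nonneg j : (0 : ℝ) ≤ (j : ℝ))]
      _ = Real.exp (-(1 / 4)) ^ (j + 1) := by rw [Real.exp_nat_mul]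
      _ ≤ _ := pow_le_pow_left₀ (Real.exp_pos _).le h1 _
  obtain ⟨NN, hJ⟩ := exists_nat_ge (∑ ω : V × J → S, |psi A b (pot a c v W l ω) x - M| / σ)
  have hX : ∀ ω : V × J → S, |psi A b (pot a c v W l ω) x - M| / σ ≤ NN + 1 := by
    intro ω
    have : |psi A b (pot a c v W l ω) x - M| / σ
        ≤ ∑ ω : V × J → S, |psi A b (pot a c v W l ω) x - M| / σ :=
      Finset.single_le_sum (f := fun ω : V × J → S => |psi A b (pot a c v W l ω) x - M| / σ)
        (fun ω _ => by positivity) (Finset.mem_univ ω)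
    linarith
  have h1 : ∀ ω : V × J → S,
      (if Good A b η (pot a c v W l ω) then |psi A b (pot a c v W l ω) x - M| else 0)
      ≤ σ * (1 + ∑ j ∈ Finset.range NN, (if Good A b η (pot a c v W l ω) ∧
      ((j : ℝ) + 1) * σ ≤ |psi A b (pot a c v W l ω) x - M| then (1 : ℝ) else 0)) := by
    intro ω
    by_cases hg : Good A b η (pot a c v W l ω)
    · rw [if_pos hg]
      have h2 := layer _ NN (hX ω)
      rw [div_le_iff₀ hσ0] at h2
      rw [mul_comm σ]
      refine h2.trans (le_of_eq ?_)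
      congr 2
      refine Finset.sum_congr rfl fun j _ => ?_
      have : ((j : ℝ) + 1 ≤ |psi A b (pot a c v W l ω) x - M| / σ) ↔
        (Good A b η (pot a c v W l ω) ∧ ((j : ℝ) + 1) * σ ≤ |psi A b (pot a c v W l ω) x - M|) := by
        rw [le_div_iff₀ hσ0]
        exact ⟨fun hh => ⟨hg, hh⟩, fun hh => hh.2⟩
      simp only [this]
    · rw [if_neg hg]
      have : (0 : ℝ) ≤ ∑ j ∈ Finset.range NN, (if Good A b η (pot a c v W l ω) ∧
        ((j : ℝ) + 1) * σ ≤ |psi A b (pot a c v W l ω) x - M| then (1 : ℝ) else 0) :=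
        Finset.sum_nonneg fun j _ => by split_ifs <;> norm_num
      positivity
  refine (Ex_mono hp h1).trans ?_
  rw [Ex_mul_left, Ex_add, Ex_const hp, Ex_sum]
  have h2 : ∑ j ∈ Finset.range NN, Ex p (fun ω => if Good A b η (pot a c v W l ω) ∧
      ((j : ℝ) + 1) * σ ≤ |psi A b (pot a c v W l ω) x - M| then (1 : ℝ) else 0) ≤ 32 := by
    calc ∑ j ∈ Finset.range NN, Ex p (fun ω => if Good A b η (pot a c v W l ω) ∧
      ((j : ℝ) + 1) * σ ≤ |psi A b (pot a c v W l ω) x - M| then (1 : ℝ) else 0)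
        ≤ ∑ j ∈ Finset.range NN, 8 * (4 / 5 : ℝ) ^ (j + 1) := by
          refine Finset.sum_le_sum fun j _ => ?_
          have h3 := ht j
          have h4 := he j
          have h5 : Ex p (fun ω => if Good A b η (pot a c v W l ω) ∧
            ((j : ℝ) + 1) * σ ≤ |psi A b (pot a c v W l ω) x - M| then (1 : ℝ) else 0)
            = Pr p (fun ω => Good A b η (pot a c v W l ω) ∧
              ((j : ℝ) + 1) * σ ≤ |psi A b (pot a c v W l ω) x - M|) := by
            unfold Pr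
            congr!
          rw [h5]
          linarith
      _ = 8 * ∑ j ∈ Finset.range NN, (4 / 5 : ℝ) ^ (j + 1) := by rw [Finset.mul_sum]
      _ ≤ 32 := by have := geo NN; linarith
  have h3 : σ * (1 + ∑ j ∈ Finset.range NN, Ex p (fun ω => if Good A b η (pot a c v W l ω) ∧
      ((j : ℝ) + 1) * σ ≤ |psi A b (pot a c v W l ω) x - M| then (1 : ℝ) else 0)) ≤ σ * 33 :=
    mul_le_mul_of_nonneg_left (by linarith) hσ0.le
  refine h3.trans ?_
  rw [hσ]
  nlinarith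

end Pool.Agent.W122.GS
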