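import Pool.Agent.W122.GS.Fix

/-!
# The theorem on finite networks
-/

set_option autoImplicit false
set_option linter.unusedSectionVars false

namespace Pool.Agent.W122.GS

open Pool.Agent.W122.DS Pool.Agent.W122.DS.Core

variable {V S J : Type} [Fintype V] [DecidableEq V] [Fintype S] [DecidableEq S] [Fintype J]
  [DecidableEq J] [Nonempty V]
variable {A : V → V → ℝ} {b : V → ℝ} {η : ℝ}
variable {a : V → ℝ} {Cs : ℝ} {ρ τ k : V → ℝ} {c : J → ℝ} {p v : V × J → S → ℝ}

/-- The mean of the solution is harmonic, hence constant, at the fixed point. -/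
lemma harmonic (h : Hyp A b η a Cs ρ τ k c p v) (W : V → ℝ) (l : ℝ)
    (hW : ∀ x, W x * mv A b η a c p v W l x + l * (a x * nv A b η a c p v W l x) = 0) (x : V) :
    mv A b η a c p v W l x = qv A b η a c p v W l := by
  have h1 : ∀ (ω : V × J → S) (x : V), ∑ y, A x y * (ext A b η (thv η x) (pot a c v W l ω)
      - ext A b η (thv η y) (pot a c v W l ω)) + b x * ext A b η (thv η x) (pot a c v W l ω)
      + (l * (a x * (dis c v ω x * ext A b η (thv η x) (pot a c v W l ω)))
        + W x * ext A b η (thv η x) (pot a c v W l ω))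
      - b x * ext A b η (th η) (pot a c v W l ω) = 0 := by
    intro ω x
    by_cases hg : Good A b η (pot a c v W l ω)
    · have h2 := (psi_spec h.net h.η2 hg).2 x
      unfold ext
      simp only [if_pos hg]
      unfold thv
      unfold Hm at h2
      set ψ := psi A b (pot a c v W l ω)
      have h3 : ∑ y, A x y * (th η ψ * ψ x - th η ψ * ψ y)
          = th η ψ * ∑ y, A x y * (ψ x - ψ y) := by
        rw [Finset.mul_sum]
        exact Finset.sum_congr rfl fun y _ => by ring
      rw [h3]
      have h4 : pot a c v W l ω x = l * (a x * dis c v ω x) + W x := rfl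
      rw [h4] at h2
      linear_combination (th η ψ) * h2
    · unfold ext
      simp only [if_neg hg]
      simp
  have h2 : ∀ x, ∑ y, A x y * (mv A b η a c p v W l x - mv A b η a c p v W l y)
      + b x * mv A b η a c p v W l x
      + (l * (a x * nv A b η a c p v W l x) + W x * mv A b η a c p v W l x)
      - b x * qv A b η a c p v W l = 0 := by
    intro x
    have h3 : Ex p (fun ω => ∑ y, A x y * (ext A b η (thv η x) (pot a c v W l ω)
      - ext A b η (thv η y) (pot a c v W l ω)) + b x * ext A b η (thv η x) (pot a c v W l ω)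
      + (l * (a x * (dis c v ω x * ext A b η (thv η x) (pot a c v W l ω)))
        + W x * ext A b η (thv η x) (pot a c v W l ω))
      - b x * ext A b η (th η) (pot a c v W l ω)) = 0 := by
      unfold Ex
      refine Finset.sum_eq_zero fun ω _ => ?_
      simp only
      rw [h1 ω x, mul_zero]
    rw [Ex_sub, Ex_add, Ex_add, Ex_add, Ex_sum, Ex_mul_left, Ex_mul_left, Ex_mul_left,
      Ex_mul_left, Ex_mul_left] at h3
    have h4 : ∀ y, Ex p (fun ω => A x y * (ext A b η (thv η x) (pot a c v W l ω)
        - ext A b η (thv η y) (pot a c v W l ω)))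
        = A x y * (mv A b η a c p v W l x - mv A b η a c p v W l y) := by
      intro y
      rw [Ex_mul_left, Ex_sub]
      unfold mv
      simp only [one_mul]
    simp only [h4] at h3
    unfold mv nv qv at *
    simp only [one_mul] at *
    exact h3
  have h5 : ∀ x, Hm A b 0 (fun y => mv A b η a c p v W l y - qv A b η a c p v W l) x = 0 := by
    intro x
    have h6 := h2 x
    have h7 := hW x
    unfold Hm
    simp only [Pi.zero_apply, zero_mul, add_zero]
    have h8 : ∑ y, A x y * (mv A b η a c p v W l x - qv A b η a c p v W l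
        - (mv A b η a c p v W l y - qv A b η a c p v W l))
        = ∑ y, A x y * (mv A b η a c p v W l x - mv A b η a c p v W l y) :=
      Finset.sum_congr rfl fun y _ => by ring
    rw [h8]
    linarith
  have h9 := h.net.inj _ h5 x
  linarith

/-- The tail at the fixed point. -/
lemma tail_fix (tal : StmTal) (h : Hyp A b η a Cs ρ τ k c p v) (W : V → ℝ) {l : ℝ} (hl0 : 0 ≤ l)
    (hl1 : l ≤ 1) (x : V) (hρ : 0 < ρ x) (hτ : 0 < τ x)
    (hq : 1 / 2 ≤ qv A b η a c p v W l)
    (hm : mv A b η a c p v W l x = qv A b η a c p v W l) :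
    Pr p (fun ω => Good A b η (pot a c v W l ω) ∧
      5 * τ x + 300 * √(ρ x) ≤ |psi A b (pot a c v W l ω) x - 1|)
      ≤ 8 * Real.exp (-(k x / 4)) := by
  classical
  have hp := h.law.pr
  have hY : 1 / 2 ≤ Pr p (fun ω => Good A b η (pot a c v W l ω)) := by
    refine hq.trans ?_
    unfold qv Pr
    refine Ex_mono hp fun ω => ?_
    rw [one_mul]
    exact ext_le_ind _
  obtain ⟨M, hM1, hM2⟩ := exists_median hp (fun ω => Good A b η (pot a c v W l ω))
    (fun ω => psi A b (pot a c v W l ω) x)
  have hmd := mean_dist tal h W hl0 hl1 x M hρ hY hM1 hM2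
  have h1 : |mv A b η a c p v W l x - M * qv A b η a c p v W l| ≤ 150 * √(ρ x) := by
    unfold mv qv
    rw [← Ex_mul_left, ← Ex_sub]
    refine (Ex_abs_le hp _).trans (le_trans (Ex_mono hp fun ω => ?_) hmd)
    unfold ext
    by_cases hg : Good A b η (pot a c v W l ω)
    · simp only [if_pos hg]
      unfold thv
      have e : 1 * (th η (psi A b (pot a c v W l ω)) * psi A b (pot a c v W l ω) x)
          - M * (1 * th η (psi A b (pot a c v W l ω)))
          = th η (psi A b (pot a c v W l ω)) * (psi A b (pot a c v W l ω) x - M) := by ring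
      rw [e, abs_mul, abs_of_nonneg (th_nonneg _)]
      exact mul_le_of_le_one_left (abs_nonneg _) (th_le_one _)
    · simp only [if_neg hg]
      simp
  rw [hm] at h1
  have h2 : |M - 1| ≤ 300 * √(ρ x) := by
    have e : qv A b η a c p v W l - M * qv A b η a c p v W l = qv A b η a c p v W l * (1 - M) := by
      ring
    rw [e, abs_mul, abs_of_nonneg (by linarith : 0 ≤ qv A b η a c p v W l), abs_sub_comm] at h1
    have h3 := mul_le_mul_of_nonneg_right hq (abs_nonneg (M - 1))
    linarith
  have h3 : Pr p (fun ω => Good A b η (pot a c v W l ω) ∧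
      5 * τ x ≤ |psi A b (pot a c v W l ω) x - M|) ≤ 8 * Real.exp (-(k x / 4)) := by
    refine tail tal h W hl0 hl1 x M (5 * τ x) (k x) hY hM1 hM2 ?_
    intro ω hU q hq0 hq1 hqk
    have h4 := h.gb.kf _ hU x _ (fun y => Hm_Gr' h.net h.η2 hU x y) q hq0 hq1 hqk
    linarith
  refine le_trans (Pr_mono hp fun ω hω => ?_) h3
  refine ⟨hω.1, ?_⟩
  have h4 : |psi A b (pot a c v W l ω) x - 1|
      ≤ |psi A b (pot a c v W l ω) x - M| + |M - 1| := by
    have := abs_add_le (psi A b (pot a c v W l ω) x - M) (M - 1)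
    rwa [sub_add_sub_cancel] at this
  have h5 := hω.2
  linarith

/-- The theorem on finite networks. -/
theorem coreF (tal : StmTal) (es : StmES) (h : Hyp A b η a Cs ρ τ k c p v)
    (hρ : ∀ x, 0 < ρ x) (hτ : ∀ x, 0 < τ x) (hR : ∀ x, 5 * τ x + 300 * √(ρ x) ≤ η / 4)
    (hk : 256 * ∑ x, Real.exp (-(k x / 4)) ≤ 1) :
    ∃ W : V → ℝ, (∀ x, |W x| ≤ 360 / η * Cs * a x ^ 2) ∧
      1 - 40 * ∑ x, Real.exp (-(k x / 4)) ≤ Pr p (fun ω : V × J → S => ∃ ψ : V → ℝ,
        (∀ x, |ψ x - 1| ≤ 5 * τ x + 300 * √(ρ x)) ∧
        ∀ x, Hm A b (fun y => a y * dis c v ω y + W y) ψ x = b x) := by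
  classical
  have hp := h.law.pr
  have hη := h.η0
  have hη1 := h.η1
  have hCs := h.Cs1
  set Se : ℝ := ∑ x, Real.exp (-(k x / 4)) with hSe
  have hS0 : 0 ≤ Se := Finset.sum_nonneg fun x _ => (Real.exp_pos _).le
  obtain ⟨W, l, hl0, hl1, hW, hl⟩ := fixed h
  set q := qv A b η a c p v W l with hqd
  have hWb : ∀ x, |W x| ≤ 360 / η * Cs * a x ^ 2 := by
    intro x
    have h1 := corr_bound h W hl0 hl1 x
    have h2 : (1 / 8 : ℝ) ≤ max (mv A b η a c p v W l x) (1 / 8) := le_max_right _ _
    rw [hW x, abs_div, abs_neg, abs_mul, abs_mul, abs_of_nonneg hl0,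
      abs_of_nonneg (h.a0 x), abs_of_pos (by linarith : (0 : ℝ)
        < max (mv A b η a c p v W l x) (1 / 8)), div_le_iff₀ (by linarith)]
    have h4 : l * (a x * |nv A b η a c p v W l x|) ≤ 1 * (a x * (45 / η * (a x * Cs))) := by
      refine mul_le_mul hl1 (mul_le_mul_of_nonneg_left h1 (h.a0 x))
        (mul_nonneg (h.a0 x) (abs_nonneg _)) zero_le_one
    have h5 : 360 / η * Cs * a x ^ 2 * (1 / 8) ≤ 360 / η * Cs * a x ^ 2
        * max (mv A b η a c p v W l x) (1 / 8) :=
      mul_le_mul_of_nonneg_left h2 (by positivity)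
    refine h4.trans (le_trans (le_of_eq ?_) h5)
    ring
  -- the gap
  have hq2 : 1 / 2 < q := by
    by_contra hc
    push Not at hc
    have h1 : l = 0 := by
      rw [hl]
      exact cl_zero (by linarith)
    have h2 : ∀ x, W x = 0 := by
      intro x
      rw [hW x, h1]
      simp
    have h3 : ∀ ω : V × J → S, pot a c v W l ω = 0 := by
      intro ω
      funext x
      unfold pot
      rw [h1, h2 x]
      simp
    have h4 : q = 1 := by
      rw [hqd]
      unfold qv
      have h5 : ∀ ω : V × J → S, 1 * ext A b η (th η) (pot a c v W l ω) = 1 := by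
        intro ω
        rw [h3 ω, one_mul]
        unfold ext
        rw [if_pos (good_zero hη.le), psi_zero h.net hη.le h.η2]
        exact th_one hη fun x => by
          simp only [sub_self, abs_zero]
          linarith
      rw [show (fun ω : V × J → S => 1 * ext A b η (th η) (pot a c v W l ω)) = fun _ => 1 from
        funext h5, Ex_const hp]
    linarith
  -- the mean of the solution is large
  have hm1 : ∀ x, 1 / 8 ≤ mv A b η a c p v W l x := by
    intro x
    have h1 : 9 / 10 * q ≤ mv A b η a c p v W l x := by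
      rw [hqd]
      unfold qv mv
      rw [← Ex_mul_left]
      refine Ex_mono hp fun ω => ?_
      unfold ext
      by_cases hg : Good A b η (pot a c v W l ω)
      · simp only [if_pos hg]
        unfold thv
        have h2 := (psi_spec h.net h.η2 hg).1 x
        have h3 : 9 / 10 ≤ psi A b (pot a c v W l ω) x := by
          have := (abs_le.1 h2).1
          linarith
        have h4 := mul_le_mul_of_nonneg_left h3 (th_nonneg (η := η) (psi A b (pot a c v W l ω)))
        linarith
      · simp only [if_neg hg]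
        simp
    linarith
  have hWm : ∀ x, W x * mv A b η a c p v W l x + l * (a x * nv A b η a c p v W l x) = 0 := by
    intro x
    have h1 := hW x
    rw [max_eq_left (hm1 x)] at h1
    have h2 : mv A b η a c p v W l x ≠ 0 := by have := hm1 x; linarith
    have h3 : W x * mv A b η a c p v W l x = -(l * (a x * nv A b η a c p v W l x)) := by
      conv_lhs => rw [h1]
      field_simp
    linarith
  have hmq : ∀ x, mv A b η a c p v W l x = q := fun x => harmonic h W l hWm x
  have htail : ∀ x, Pr p (fun ω => Good A b η (pot a c v W l ω) ∧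
      5 * τ x + 300 * √(ρ x) ≤ |psi A b (pot a c v W l ω) x - 1|)
      ≤ 8 * Real.exp (-(k x / 4)) :=
    fun x => tail_fix tal h W hl0 hl1 x (hρ x) (hτ x) hq2.le (hmq x)
  have htail4 : ∀ x, Pr p (fun ω => Good A b η (pot a c v W l ω) ∧
      η / 4 ≤ |psi A b (pot a c v W l ω) x - 1|) ≤ 8 * Real.exp (-(k x / 4)) :=
    fun x => (Pr_mono hp fun ω hω => ⟨hω.1, (hR x).trans hω.2⟩).trans (htail x)
  -- the variance of the cut-off
  have hvar := var_bound es h W hl0 hl1
  have hqE : q = Ex p (fun ω => ext A b η (th η) (pot a c v W l ω)) := by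
    rw [hqd]
    unfold qv
    simp only [one_mul]
  rw [← hqE] at hvar
  have hvar2 : 400 / η ^ 2 * ∑ x, ρ x * Pr p (fun ω => Good A b η (pot a c v W l ω) ∧
          η / 4 ≤ |psi A b (pot a c v W l ω) x - 1|) ≤ 8 * Se := by
    rw [hSe, Finset.mul_sum, Finset.mul_sum]
    refine Finset.sum_le_sum fun x _ => ?_
    have h1 : √(ρ x) ≤ η / 20 := by
      have h2 := hR x
      have h3 := hτ x
      have h4 := Real.sqrt_nonneg (ρ x)
      linarith
    have h2 : ρ x ≤ η ^ 2 / 400 := by
      calc ρ x = √(ρ x) ^ 2 := (Real.sq_sqrt (hρ x).le).symm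
        _ ≤ (η / 20) ^ 2 := pow_le_pow_left₀ (Real.sqrt_nonneg _) h1 2
        _ = η ^ 2 / 400 := by ring
    have h3 : 400 / η ^ 2 * ρ x ≤ 1 := by
      rw [div_mul_eq_mul_div, div_le_iff₀ (by positivity)]
      linarith
    have h4 := Pr_nonneg hp (fun ω => Good A b η (pot a c v W l ω) ∧
          η / 4 ≤ |psi A b (pot a c v W l ω) x - 1|)
    have h5 : 0 ≤ 400 / η ^ 2 * ρ x := by
      have := (hρ x).le
      positivity
    calc 400 / η ^ 2 * (ρ x * Pr p (fun ω => Good A b η (pot a c v W l ω) ∧
          η / 4 ≤ |psi A b (pot a c v W l ω) x - 1|))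
        = (400 / η ^ 2 * ρ x) * Pr p (fun ω => Good A b η (pot a c v W l ω) ∧
          η / 4 ≤ |psi A b (pot a c v W l ω) x - 1|) := by ring
      _ ≤ 1 * Pr p (fun ω => Good A b η (pot a c v W l ω) ∧
          η / 4 ≤ |psi A b (pot a c v W l ω) x - 1|) := mul_le_mul_of_nonneg_right h3 h4
      _ ≤ _ := by rw [one_mul]; exact htail4 x
  -- the cut-off is mostly zero or one
  have hmid : q - Ex p (fun ω => ext A b η (th η) (pot a c v W l ω) ^ 2) ≤ 8 * Se := by
    rw [hqE, ← Ex_sub]
    have h1 : Ex p (fun ω => ext A b η (th η) (pot a c v W l ω)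
        - ext A b η (th η) (pot a c v W l ω) ^ 2)
        ≤ Pr p (fun ω => ∃ x, Good A b η (pot a c v W l ω) ∧
          η / 4 ≤ |psi A b (pot a c v W l ω) x - 1|) := by
      rw [Pr_def]
      refine Ex_mono hp fun ω => ?_
      have h2 := ext_nonneg (A := A) (b := b) (η := η) (pot a c v W l ω)
      have h3 := ext_le_one (A := A) (b := b) (η := η) (pot a c v W l ω)
      split_ifs with h4
      · nlinarith
      · push Not at h4
        by_cases hg : Good A b η (pot a c v W l ω)
        · have h5 : ext A b η (th η) (pot a c v W l ω) = 1 := by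
            unfold ext
            rw [if_pos hg]
            exact th_one hη fun x => by
              have := h4 x hg
              linarith
          rw [h5]
          norm_num
        · have h5 : ext A b η (th η) (pot a c v W l ω) = 0 := by
            unfold ext
            rw [if_neg hg]
          rw [h5]
          norm_num
    refine h1.trans ((Pr_exists hp _).trans ?_)
    rw [hSe, Finset.mul_sum]
    exact Finset.sum_le_sum fun x _ => htail4 x
  have hqle : q ≤ 1 := by
    rw [hqE]
    exact Ex_le_const hp fun ω => ext_le_one _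
  have hgap : 1 - q ≤ 32 * Se := by nlinarith
  have hl1' : l = 1 := by
    rw [hl]
    apply cl_one
    linarith
  refine ⟨W, hWb, ?_⟩
  -- the final event
  have hnot : Pr p (fun ω => ¬ Good A b η (pot a c v W l ω)) ≤ 32 * Se := by
    refine le_trans ?_ hgap
    rw [hqE]
    have h1 : Ex p (fun _ : V × J → S => (1 : ℝ)) = 1 := Ex_const hp 1
    rw [← h1, ← Ex_sub, Pr_def]
    refine Ex_mono hp fun ω => ?_
    have h3 := ext_le_one (A := A) (b := b) (η := η) (pot a c v W l ω)
    by_cases h4 : Good A b η (pot a c v W l ω)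
    · rw [if_neg (not_not.2 h4)]
      linarith
    · rw [if_pos h4]
      unfold ext
      rw [if_neg h4]
      norm_num
  have hbad : Pr p (fun ω : V × J → S => ¬ ∃ ψ : V → ℝ,
        (∀ x, |ψ x - 1| ≤ 5 * τ x + 300 * √(ρ x)) ∧
        ∀ x, Hm A b (fun y => a y * dis c v ω y + W y) ψ x = b x) ≤ 40 * Se := by
    have h1 : Pr p (fun ω : V × J → S => ¬ ∃ ψ : V → ℝ,
        (∀ x, |ψ x - 1| ≤ 5 * τ x + 300 * √(ρ x)) ∧
        ∀ x, Hm A b (fun y => a y * dis c v ω y + W y) ψ x = b x)
        ≤ Pr p (fun ω => (¬ Good A b η (pot a c v W l ω)) ∨ ∃ x, Good A b η (pot a c v W l ω) ∧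
          5 * τ x + 300 * √(ρ x) ≤ |psi A b (pot a c v W l ω) x - 1|) := by
      refine Pr_mono hp fun ω hω => ?_
      by_contra hc
      push Not at hc
      obtain ⟨hg, hc2⟩ := hc
      apply hω
      refine ⟨psi A b (pot a c v W l ω), fun x => (hc2 x hg).le, fun x => ?_⟩
      have h2 := (psi_spec h.net h.η2 hg).2 x
      have h3 : pot a c v W l ω = fun y => a y * dis c v ω y + W y := by
        funext y
        unfold pot
        rw [hl1', one_mul]
      rw [h3] at h2 ⊢
      exact h2
    refine h1.trans ((Pr_or hp _ _).trans ?_)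
    have h2 : Pr p (fun ω => ∃ x, Good A b η (pot a c v W l ω) ∧
          5 * τ x + 300 * √(ρ x) ≤ |psi A b (pot a c v W l ω) x - 1|) ≤ 8 * Se := by
      refine (Pr_exists hp _).trans ?_
      rw [hSe, Finset.mul_sum]
      exact Finset.sum_le_sum fun x _ => htail x
    linarith
  rw [Pr_not hp] at hbad
  linarith

end Pool.Agent.W122.GS
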