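import Pool.Agent.W122.DS.Defs

/-!
# The adjacency operator of the lattice and the upper band edge
-/

set_option autoImplicit false

namespace Pool.Agent.W122.GS

open Pool.Agent.W122.DS

/-- `(Δψ)(x)`, the sum of `ψ` over the `2d` neighbours of `x`. -/
noncomputable def adj {d : ℕ} (ψ : Lat d → ℝ) (x : Lat d) : ℝ :=
  ∑ i, (ψ (x + Pi.single i 1) + ψ (x - Pi.single i 1))

/-- Properties of `H = Δ + U` on the square summable functions at the upper band edge `2d`:
`H ≤ 2d`, no eigenvalue at or above `2d`, and eigenfunctions near the edge are spread out. -/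
def TopProps (d : ℕ) (C : ℝ) (U : Lat d → ℝ) : Prop :=
  (∀ u : Lat d → ℝ, Summable (fun x => u x ^ 2) →
    Summable (fun x => u x * (adj u x + U x * u x)) ∧
      ∑' x, u x * (adj u x + U x * u x) ≤ 2 * d * ∑' x, u x ^ 2) ∧
  (∀ (E : ℝ) (u : Lat d → ℝ), Summable (fun x => u x ^ 2) →
    (∀ x, adj u x + U x * u x = E * u x) → 2 * d ≤ E → ∀ x, u x = 0) ∧
  (∀ (E : ℝ) (u : Lat d → ℝ), Summable (fun x => u x ^ 2) →
    (∀ x, adj u x + U x * u x = E * u x) →
    ∀ x, u x ^ 2 ≤ C * (2 * d - E) ^ 2 * ∑' y, u y ^ 2)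

/-- The form of `Δ + U` exceeds `2d` on functions supported arbitrarily far out. -/
def AboveFar (d : ℕ) (U : Lat d → ℝ) : Prop :=
  ∀ R : ℝ, ∃ (Λ : Finset (Lat d)) (u : Lat d → ℝ), (∀ x, x ∉ Λ → u x = 0) ∧
    (∀ x ∈ Λ, R ≤ nsq x) ∧
    2 * d * ∑ x ∈ Λ, u x ^ 2 < ∑ x ∈ Λ, u x * (adj u x + U x * u x)

lemma negLap_eq {d : ℕ} (ψ : Lat d → ℝ) (x : Lat d) : negLap ψ x = 2 * d * ψ x - adj ψ x := by
  unfold negLap adj
  have : ∀ i : Fin d, 2 * ψ x - ψ (x + Pi.single i 1) - ψ (x - Pi.single i 1)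
      = 2 * ψ x - (ψ (x + Pi.single i 1) + ψ (x - Pi.single i 1)) := fun i => by ring
  rw [Finset.sum_congr rfl fun i _ => this i, Finset.sum_sub_distrib]
  simp
  ring

lemma top_of_edge {d : ℕ} {C : ℝ} {U : Lat d → ℝ} (h : EdgeProps d C (fun x => -U x)) :
    TopProps d C U := by
  obtain ⟨h1, h2, h3⟩ := h
  have key : ∀ (u : Lat d → ℝ) (x : Lat d), negLap u x + -U x * u x
      = 2 * d * u x - (adj u x + U x * u x) := by
    intro u x
    rw [negLap_eq]
    ring
  refine ⟨fun u hu => ?_, fun E u hu he hE => ?_, fun E u hu he x => ?_⟩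
  · obtain ⟨h4, h5⟩ := h1 u hu
    have e : (fun x => u x * (adj u x + U x * u x))
        = fun x => 2 * d * u x ^ 2 - u x * (negLap u x + -U x * u x) := by
      funext x
      rw [key]
      ring
    have hs := (hu.mul_left (2 * (d : ℝ))).sub h4
    refine ⟨by rw [e]; exact hs, ?_⟩
    rw [e, (hu.mul_left (2 * (d : ℝ))).tsum_sub h4, tsum_mul_left]
    linarith
  · refine h2 (2 * d - E) u hu (fun x => ?_) (by linarith)
    rw [key, he]
    ring
  · refine h3 (2 * d - E) u hu (fun x => ?_) x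
    rw [key, he]
    ring

end Pool.Agent.W122.GS
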