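import Pool.Agent.W122.DS.Stm3

/-!
# Gaussian disorder: statements
-/

set_option autoImplicit false

namespace Pool.Agent.W122.GS

open MeasureTheory ProbabilityTheory Pool.Agent.W122.DS

/-- The statement in finite volume, with normalised sums of `n` fair signs. -/
def FinVolG (d : ℕ) (a B : Lat d → ℝ) (C δ : ℝ) : Prop :=
  ∀ (Λ : Finset (Lat d)) (n : ℕ), 1 ≤ n →
    ∃ W : Lat d → ℝ, (∀ x, |W x| ≤ C * a x ^ 2) ∧
      1 - δ ≤ Pr (fun (_ : Λ × Fin n) (_ : Bool) => (1 / 2 : ℝ))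
        (fun ω : Λ × Fin n → Bool => ∃ ψ : Lat d → ℝ, (∀ x, |ψ x - 1| ≤ B x) ∧
          ∀ x : Λ, negLap ψ x.1
            + (a x.1 * ((√n)⁻¹ * ∑ j, (if ω (x, j) then (1 : ℝ) else -1)) + W x.1) * ψ x.1 = 0)

/-- The statement in infinite volume for Gaussian disorder. -/
def InfVolG (d : ℕ) (a B : Lat d → ℝ) (C δ : ℝ) : Prop :=
  ∀ (Ω : Type) [MeasurableSpace Ω] (P : Measure Ω) [IsProbabilityMeasure P] (ξ : Lat d → Ω → ℝ),
    (∀ x, Measurable (ξ x)) → iIndepFun ξ P → (∀ x, P.map (ξ x) = gaussianReal 0 1) →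
    ∃ W : Lat d → ℝ, (∀ x, |W x| ≤ C * a x ^ 2) ∧
      ∃ E : Set Ω, MeasurableSet E ∧ 1 - δ ≤ P.real E ∧ ∀ ω ∈ E, ∃ ψ : Lat d → ℝ,
        (∀ x, |ψ x - 1| ≤ B x) ∧ ∀ x, negLap ψ x + (a x * ξ x ω + W x) * ψ x = 0

/-- From sums of signs in finite volume to Gaussian disorder in infinite volume. -/
def StmLimitG : Prop := ∀ (d : ℕ) (a B : Lat d → ℝ) (C δ : ℝ), (∀ x, 0 ≤ a x) → (∀ x, 0 ≤ B x) →
  0 ≤ C → FinVolG d a B C δ → InfVolG d a B C δ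

/-- Sharpness of the order of the weights in the Gaussian case. -/
def StmNegG : Prop := ∀ d : ℕ, 1 ≤ d → ∃ K₀ : ℝ, 0 < K₀ ∧ ∀ (K C : ℝ), K₀ ≤ K →
  ∀ (W : Lat d → ℝ), (∀ x, |W x| ≤ C * (K / √(Real.log (Real.exp 1 + √(nsq x)))) ^ 2) →
  ∀ (Ω : Type) [MeasurableSpace Ω] (P : Measure Ω) [IsProbabilityMeasure P] (ξ : Lat d → Ω → ℝ),
    (∀ x, Measurable (ξ x)) → iIndepFun ξ P → (∀ x, P.map (ξ x) = gaussianReal 0 1) →
    ∀ᵐ ω ∂P, NegFar d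
      (fun x => K / √(Real.log (Real.exp 1 + √(nsq x))) * ξ x ω + W x)

end Pool.Agent.W122.GS
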