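import Pool.Agent.W122.GS.Core
import Pool.Agent.W122.GS.Stm
import Pool.Agent.W122.DS.FinV

/-!
# Gaussian disorder: the theorem in finite volume
-/

set_option autoImplicit false
set_option linter.unusedSectionVars false

namespace Pool.Agent.W122.GS

open Pool.Agent.W122.DS Pool.Agent.W122.DS.Core

variable {d : ℕ}

/-- The value of a sign. -/
noncomputable def sg (s : Bool) : ℝ := if s then 1 else -1

lemma law_sg (I : Type) : Law (fun (_ : I) (_ : Bool) => (1 / 2 : ℝ)) (fun _ s => sg s) where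
  pr := ⟨fun _ _ => by norm_num, fun _ => by simp⟩
  bdd := fun _ s => by
    unfold sg
    cases s <;> norm_num
  mean := fun _ => by
    unfold sg
    simp

/-- The finite volume theorem for normalised sums of signs. -/
theorem finVolG (tal : StmTal) (es : StmES) (green : StmGreen) (lg : StmLog)
    (sm : StmSum) (hd : 5 ≤ d) (δ : ℝ) (hδ : 0 < δ) :
    ∃ η C₀ κ₀ C : ℝ, 0 < η ∧ η ≤ 1 / 10 ∧ 1 ≤ C₀ ∧ GreenBound d 0 η C₀ ∧ 0 < κ₀ ∧ 0 < C ∧
      C * κ₀ ≤ η ∧ ∀ κ : ℝ, 0 < κ → κ ≤ κ₀ → ∀ a : Lat d → ℝ, (∀ x, 0 ≤ a x) →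
        (∀ x, a x ≤ κ / √(Lg x)) → FinVolG d a (fun _ => C * κ) C δ := by
  classical
  have hdR : (5 : ℝ) ≤ d := by exact_mod_cast hd
  -- the exponent
  set γ : ℝ := ((d : ℝ) - 4) / 4 with hγ
  have hγ0 : 0 < γ := by rw [hγ]; linarith
  have hγ2 : γ < ((d : ℝ) - 4) / 2 := by rw [hγ]; linarith
  -- the constants
  obtain ⟨η, CG, hη0, hη1, hCG, hG⟩ := green d hd γ hγ0.le hγ2
  obtain ⟨Ca, hCa, ha⟩ := lg d 1 γ one_pos hγ0
  obtain ⟨CS, hCS, hS⟩ := sm d
  set T₀ : ℝ := 1 + 256 * CS + 40 * CS / δ with hT₀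
  have hT1 : 1 ≤ T₀ := by
    have : 0 ≤ 40 * CS / δ := by positivity
    linarith
  have hlT : 0 ≤ Real.log T₀ := Real.log_nonneg hT1
  set cT : ℝ := 4 * (d + 1) + 4 * Real.log T₀ with hcT
  have hcT1 : 1 ≤ cT := by linarith
  set D : ℝ := √(CG * Ca * cT) with hD
  have hDpos : 0 < CG * Ca * cT := by positivity
  have hD0 : 0 < D := Real.sqrt_pos.2 hDpos
  have hD2 : D ^ 2 = CG * Ca * cT := Real.sq_sqrt hDpos.le
  have hsG1 : 1 ≤ √CG := by
    rw [Real.one_le_sqrt]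
    exact hCG
  have hsGa : 0 < √(Ca * CG) := Real.sqrt_pos.2 (by positivity)
  set C : ℝ := 5 * D + 300 * √(Ca * CG) + 360 / η * √CG + 1 with hC
  have h360 : √CG ≤ 360 / η * √CG := by
    have : 1 ≤ 360 / η := by
      rw [le_div_iff₀ hη0]
      linarith
    nlinarith
  have hC1 : 1 ≤ C := by
    have : 0 ≤ 360 / η * √CG := by positivity
    linarith
  have hC0 : 0 < C := by linarith
  refine ⟨η, CG, η / (64 * C), C, hη0, hη1, hCG, green_mono hγ0.le hG, by positivity, hC0, ?_, ?_⟩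
  · rw [show C * (η / (64 * C)) = η / 64 by field_simp]
    linarith
  intro κ hκ0 hκ1 a ha0 ha1
  have hκC : κ * C ≤ η / 64 := by
    have := mul_le_mul_of_nonneg_right hκ1 hC0.le
    rw [show η / (64 * C) * C = η / 64 by field_simp] at this
    exact this
  have hCκ0 : 0 ≤ C * κ := by positivity
  intro Λ n hn
  have hnR : (1 : ℝ) ≤ n := by exact_mod_cast hn
  have hsn : 1 ≤ √(n : ℝ) := by
    rw [Real.one_le_sqrt]
    exact hnR
  have hp0 : IsPr (fun (_ : Λ × Fin n) (_ : Bool) => (1 / 2 : ℝ)) := (law_sg (Λ × Fin n)).pr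
  rcases Λ.eq_empty_or_nonempty with hE | hE
  · refine ⟨fun _ => 0, fun x => ?_, ?_⟩
    · rw [abs_zero]
      positivity
    · have h1 : (1 : ℝ) ≤ Pr (fun (_ : Λ × Fin n) (_ : Bool) => (1 / 2 : ℝ))
          (fun ω : Λ × Fin n → Bool => ∃ ψ : Lat d → ℝ, (∀ x, |ψ x - 1| ≤ C * κ) ∧
          ∀ x : Λ, negLap ψ x.1
            + (a x.1 * ((√n)⁻¹ * ∑ j, (if ω (x, j) then (1 : ℝ) else -1)) + 0) * ψ x.1 = 0) := by
        have h2 : Ex (fun (_ : Λ × Fin n) (_ : Bool) => (1 / 2 : ℝ))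
          (fun _ : Λ × Fin n → Bool => (1 : ℝ)) = 1 := Ex_const hp0 1
        rw [Pr_def]
        refine h2.ge.trans (Ex_mono hp0 fun ω => ?_)
        rw [if_pos]
        refine ⟨fun _ => 1, fun x => by simpa using hCκ0, fun x => ?_⟩
        exfalso
        exact absurd x.2 (by
          have h3 : ∀ z : Lat d, z ∉ Λ := fun z => by rw [hE]; exact Finset.notMem_empty _
          exact h3 _)
      linarith
  have : Nonempty Λ := hE.to_subtype
  -- pointwise bound of the weights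
  have hL0 : ∀ x : Lat d, 0 < Lg x := fun x => lt_of_lt_of_le zero_lt_one (Lg_ge x)
  have hw : ∀ x y : Lat d, a y ^ 2 ≤ κ ^ 2 * Ca / Lg x * (1 + nsq (y - x)) ^ γ := by
    intro x y
    have h1 : a y ^ 2 ≤ (κ / √(Lg y)) ^ 2 := pow_le_pow_left₀ (ha0 y) (ha1 y) 2
    have h2 : (κ / √(Lg y)) ^ 2 = κ ^ 2 / Lg y := by
      rw [div_pow, Real.sq_sqrt (hL0 y).le]
    have h3 := ha x y
    rw [Real.rpow_one, Real.rpow_one] at h3
    change Lg x ≤ Ca * Lg y * (1 + nsq (y - x)) ^ γ at h3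
    rw [h2] at h1
    refine h1.trans ?_
    rw [div_mul_eq_mul_div, div_le_div_iff₀ (hL0 y) (hL0 x)]
    have h4 := mul_le_mul_of_nonneg_left h3 (sq_nonneg κ)
    refine h4.trans (le_of_eq ?_)
    ring
  have haκ : ∀ x : Lat d, a x ≤ κ := by
    intro x
    refine (ha1 x).trans ?_
    rw [div_le_iff₀ (Real.sqrt_pos.2 (hL0 x))]
    have : 1 ≤ √(Lg x) := by
      rw [Real.one_le_sqrt]
      exact Lg_ge x
    nlinarith
  have hsGC : √CG ≤ C := by linarith
  -- the data of the network theorem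
  set ρ : Λ → ℝ := fun x => κ ^ 2 * Ca / Lg x.1 * CG with hρd
  set τ : Λ → ℝ := fun _ => κ * D with hτd
  set k : Λ → ℝ := fun x => 4 * ((d : ℝ) + 1) * Lg x.1 + 4 * Real.log T₀ with hkd
  have hρ0 : ∀ x, 0 < ρ x := by
    intro x
    have := hL0 x.1
    simp only [hρd]
    positivity
  have hρs : ∀ x, √(ρ x) ≤ κ * √(Ca * CG) := by
    intro x
    have h1 : ρ x ≤ κ ^ 2 * (Ca * CG) := by
      simp only [hρd]
      have h3 : κ ^ 2 * Ca / Lg x.1 ≤ κ ^ 2 * Ca := div_le_self (by positivity) (Lg_ge x.1)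
      have h4 := mul_le_mul_of_nonneg_right h3 (by linarith : 0 ≤ CG)
      linarith
    calc √(ρ x) ≤ √(κ ^ 2 * (Ca * CG)) := Real.sqrt_le_sqrt h1
      _ = κ * √(Ca * CG) := by rw [Real.sqrt_mul (sq_nonneg κ), Real.sqrt_sq hκ0.le]
  have hkc : ∀ x, k x ≤ cT * Lg x.1 := by
    intro x
    have := Lg_ge x.1
    simp only [hkd, hcT]
    nlinarith
  have hke : ∀ x : Λ, Real.exp (-(k x / 4))
      = Real.exp (-(((d : ℝ) + 1) * Real.log (Real.exp 1 + √(nsq x.1)))) / T₀ := by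
    intro x
    have h1 : -(k x / 4) = -(((d : ℝ) + 1) * Real.log (Real.exp 1 + √(nsq x.1)))
        - Real.log T₀ := by
      simp only [hkd, Lg]
      ring
    rw [h1, Real.exp_sub, Real.exp_log (by linarith)]
  have hks : ∑ x, Real.exp (-(k x / 4)) ≤ CS / T₀ := by
    rw [Finset.sum_congr rfl fun x _ => hke x, ← Finset.sum_div]
    refine div_le_div_of_nonneg_right ?_ (by linarith)
    have h1 := hS Λ
    rw [← Finset.sum_coe_sort Λ
      (fun x => Real.exp (-(((d : ℝ) + 1) * Real.log (Real.exp 1 + √(nsq x)))))] at h1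
    exact h1
  have hT0 : 0 < T₀ := by linarith
  have hks1 : 256 * ∑ x, Real.exp (-(k x / 4)) ≤ 1 := by
    have h1 : 256 * (CS / T₀) ≤ 1 := by
      rw [← mul_div_assoc, div_le_one hT0]
      have : 0 ≤ 40 * CS / δ := by positivity
      linarith
    linarith
  have hks2 : 40 * ∑ x, Real.exp (-(k x / 4)) ≤ δ := by
    have h1 : 40 * (CS / T₀) ≤ δ := by
      rw [← mul_div_assoc, div_le_iff₀ hT0]
      have h2 : δ * (40 * CS / δ) = 40 * CS := by field_simp
      have h3 : δ * T₀ = δ + δ * (256 * CS) + δ * (40 * CS / δ) := by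
        rw [hT₀]
        ring
      rw [h3, h2]
      have : 0 ≤ δ * (256 * CS) := by positivity
      linarith
    linarith
  have hge : ∀ x y : Λ, (1 : ℝ) ≤ 1 + nsq (y.1 - x.1) := fun x y => by
    have := nsq_nonneg (y.1 - x.1)
    linarith
  have hGr : ∀ U, Good (Ad Λ) (bd Λ) η U → ∀ (x : Λ) (u : Λ → ℝ),
      (∀ y, Hm (Ad Λ) (bd Λ) U u y = if y = x then 1 else 0) →
      ∑ y : Λ, (1 + nsq (y.1 - x.1)) ^ γ * u y ^ 2 ≤ CG :=
    fun U hU x u hu => lat_green hη0.le hG Λ U hU x u hu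
  have hl2a : ∀ U, Good (Ad Λ) (bd Λ) η U → ∀ (x : Λ) (u : Λ → ℝ),
      (∀ y, Hm (Ad Λ) (bd Λ) U u y = if y = x then 1 else 0) →
      ∑ y : Λ, (a y.1 * u y) ^ 2 ≤ ρ x := by
    intro U hU x u hu
    have h1 := hGr U hU x u hu
    have hc0 : 0 ≤ κ ^ 2 * Ca / Lg x.1 := by
      have := hL0 x.1
      positivity
    calc ∑ y : Λ, (a y.1 * u y) ^ 2
        ≤ ∑ y : Λ, κ ^ 2 * Ca / Lg x.1 * ((1 + nsq (y.1 - x.1)) ^ γ * u y ^ 2) := by
          refine Finset.sum_le_sum fun y _ => ?_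
          rw [mul_pow, ← mul_assoc]
          exact mul_le_mul_of_nonneg_right (hw x.1 y.1) (sq_nonneg _)
      _ = κ ^ 2 * Ca / Lg x.1 * ∑ y : Λ, (1 + nsq (y.1 - x.1)) ^ γ * u y ^ 2 := by
          rw [Finset.mul_sum]
      _ ≤ _ := mul_le_mul_of_nonneg_left h1 hc0
  set c : Fin n → ℝ := fun _ => (√(n : ℝ))⁻¹ with hc
  have hGB : GB (Ad Λ) (bd Λ) η (fun x => a x.1) (√CG) (∑ j, c j) ρ τ k := by
    refine ⟨?_, hl2a, ?_⟩
    · intro U hU x u hu
      rw [Real.sq_sqrt (by linarith)]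
      refine le_trans (Finset.sum_le_sum fun y _ => ?_) (hGr U hU x u hu)
      have h1 := Real.one_le_rpow (hge x y) hγ0.le
      have h2 := mul_le_mul_of_nonneg_right h1 (sq_nonneg (u y))
      linarith
    · intro U hU x u hu q hq0 _ hqk
      have h1 := hl2a U hU x u hu
      have h2 : (∑ y : Λ, a y.1 * |u y| * q y) ^ 2
          ≤ (∑ y : Λ, (a y.1 * |u y|) ^ 2) * ∑ y : Λ, q y ^ 2 :=
        Finset.sum_mul_sq_le_sq_mul_sq _ _ _
      have h3 : ∑ y : Λ, (a y.1 * |u y|) ^ 2 ≤ ρ x := by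
        refine le_trans (le_of_eq (Finset.sum_congr rfl fun y _ => ?_)) h1
        rw [mul_pow, mul_pow, sq_abs]
      have h4 : ∑ y : Λ, q y ^ 2 ≤ cT * Lg x.1 := hqk.le.trans (hkc x)
      have h5 : (∑ y : Λ, a y.1 * |u y| * q y) ^ 2 ≤ (κ * D) ^ 2 := by
        refine h2.trans ?_
        calc (∑ y : Λ, (a y.1 * |u y|) ^ 2) * ∑ y : Λ, q y ^ 2
            ≤ ρ x * (cT * Lg x.1) :=
              mul_le_mul h3 h4 (Finset.sum_nonneg fun _ _ => sq_nonneg _) (hρ0 x).le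
          _ = (κ * D) ^ 2 := by
              have := (hL0 x.1).ne'
              rw [mul_pow, hD2]
              simp only [hρd]
              field_simp
      exact abs_le_of_sq_le_sq' h5 (by positivity) |>.2
  have hR : ∀ x, 5 * τ x + 300 * √(ρ x) ≤ C * κ := by
    intro x
    have h1 := hρs x
    have h2 : 0 ≤ 360 / η * √CG := by positivity
    have h3 : 0 ≤ κ * (360 / η * √CG + 1) := by positivity
    have h4 : C * κ = 5 * (κ * D) + 300 * (κ * √(Ca * CG)) + κ * (360 / η * √CG + 1) := by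
      rw [hC]
      ring
    rw [h4]
    simp only [hτd]
    linarith
  have hHyp : Hyp (Ad Λ) (bd Λ) η (fun x => a x.1) (√CG) ρ τ k c
      (fun (_ : Λ × Fin n) (_ : Bool) => (1 / 2 : ℝ)) (fun _ s => sg s) := by
    refine ⟨lat_net (by omega) Λ, hη0, hη1, fun x => ha0 x.1, hsG1, fun x => ?_, fun j => ?_,
      fun j => ?_, ?_, hGB, law_sg _⟩
    · calc a x.1 * √CG ≤ κ * C := mul_le_mul (haκ x.1) hsGC (Real.sqrt_nonneg _) hκ0.le
        _ ≤ η / 64 := hκC
    · simp only [hc]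
      positivity
    · simp only [hc]
      exact inv_le_one_of_one_le₀ hsn
    · simp only [hc, Finset.sum_const, Finset.card_univ, Fintype.card_fin, nsmul_eq_mul]
      rw [inv_pow, Real.sq_sqrt (by linarith), mul_inv_cancel₀ (by linarith)]
  obtain ⟨W, hW1, hW2⟩ := coreF tal es hHyp hρ0 (fun x => by simp only [hτd]; positivity)
    (fun x => (hR x).trans (by linarith)) hks1
  refine ⟨fun x => if h : x ∈ Λ then W ⟨x, h⟩ else 0, fun x => ?_, ?_⟩
  · by_cases hx : x ∈ Λ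
    · simp only [dif_pos hx]
      refine (hW1 ⟨x, hx⟩).trans ?_
      refine mul_le_mul_of_nonneg_right ?_ (sq_nonneg _)
      rw [hC]
      linarith
    · simp only [dif_neg hx, abs_zero]
      positivity
  · refine le_trans (by linarith) (hW2.trans (Pr_mono hp0 fun ω hω => ?_))
    obtain ⟨ψ, h1, h2⟩ := hω
    set Ψ : Lat d → ℝ := fun x => if h : x ∈ Λ then ψ ⟨x, h⟩ else 1 with hΨ
    have e1 : (fun y : Λ => Ψ y.1) = ψ := by
      funext y; simp only [hΨ]; rw [dif_pos y.2]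
    have o1 : ∀ y, y ∉ Λ → Ψ y = 1 := fun y hy => by simp only [hΨ]; rw [dif_neg hy]
    refine ⟨Ψ, fun x => ?_, fun x => ?_⟩
    · by_cases hx : x ∈ Λ
      · have := (h1 ⟨x, hx⟩).trans (hR _)
        rw [← congrFun e1 ⟨x, hx⟩] at this
        exact this
      · rw [o1 x hx, sub_self, abs_zero]
        exact hCκ0
    · have h3 := h2 x
      set Ũ : Lat d → ℝ := fun y => if h : y ∈ Λ then
        a y * dis c (fun (_ : Λ × Fin n) s => sg s) ω ⟨y, h⟩ + W ⟨y, h⟩ else 0 with hŨ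
      have e2 : (fun y : Λ => Ũ y.1)
          = fun y : Λ => a y.1 * dis c (fun (_ : Λ × Fin n) s => sg s) ω y + W y := by
        funext y; simp only [hŨ]; rw [dif_pos y.2]
      have h4 := Hm_lat Λ Ψ Ũ 1 o1 x
      rw [e1, e2, h3] at h4
      have h5 : Ũ x.1 = a x.1 * dis c (fun (_ : Λ × Fin n) s => sg s) ω x + W x := congrFun e2 x
      rw [h5] at h4
      have h6 : (if h : x.1 ∈ Λ then W ⟨x.1, h⟩ else 0) = W x := dif_pos x.2
      have h7 : dis c (fun (_ : Λ × Fin n) s => sg s) ω x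
          = (√(n : ℝ))⁻¹ * ∑ j, (if ω (x, j) then (1 : ℝ) else -1) := by
        unfold dis sg
        rw [Finset.mul_sum]
      change negLap Ψ x.1 + (a x.1 * ((√(n : ℝ))⁻¹ * ∑ j, (if ω (x, j) then (1 : ℝ) else -1))
        + (if h : x.1 ∈ Λ then W ⟨x.1, h⟩ else 0)) * Ψ x.1 = 0
      rw [h6, ← h7]
      linarith

end Pool.Agent.W122.GS
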