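import Pool.Agent.W122.GS.Stm
import Pool.Agent.W122.DS.Limit
import Pool.Agent.H4R2.AE.Gmgf

/-!
# From sums of signs in finite volume to Gaussian disorder in infinite volume
-/

set_option autoImplicit false

namespace Pool.Agent.W122.GS.LimitG

open MeasureTheory ProbabilityTheory Filter Topology Set
open scoped ENNReal
open Pool.Agent.W122.DS Pool.Agent.W122.DS.Limit
open Pool.Agent.H4R2.AE.Gmgf (fs cl cl_one cl_neg_one g nu XX XX_cont map_XX nuP gP tendsto_nu)

/-- The fair coin. -/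
noncomputable def coin : Measure Bool :=
  (2⁻¹ : ℝ≥0∞) • Measure.dirac true + (2⁻¹ : ℝ≥0∞) • Measure.dirac false

instance : IsProbabilityMeasure coin := ⟨by simp [coin, ENNReal.inv_two_add_inv_two]⟩

lemma coin_real (b : Bool) : coin.real {b} = 1 / 2 := by
  cases b <;> simp [coin, measureReal_def]

/-- The sign. -/
noncomputable def sg (b : Bool) : ℝ := if b then 1 else -1

lemma sg_meas : Measurable sg := Measurable.of_discrete

lemma map_sg : coin.map sg = fs := by
  unfold coin fs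
  rw [Measure.map_add _ _ sg_meas, Measure.map_smul, Measure.map_smul,
    Measure.map_dirac' sg_meas, Measure.map_dirac' sg_meas]
  simp [sg]

lemma Pr_coin {V : Type} [Fintype V] [DecidableEq V] (A : (V → Bool) → Prop) :
    Pr (fun (_ : V) (_ : Bool) => (1 / 2 : ℝ)) A =
      (Measure.pi fun _ : V => coin).real {ω | A ω} := by
  classical
  have h1 : {ω | A ω} = ((Finset.univ.filter A : Finset (V → Bool)) : Set (V → Bool)) := by
    ext ω; simp
  rw [h1, ← sum_measureReal_singleton]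
  unfold Pr Ex
  rw [Finset.sum_filter]
  refine Finset.sum_congr rfl fun ω _ => ?_
  have h2 : (Measure.pi fun _ : V => coin).real {ω} = ∏ _x : V, (1 / 2 : ℝ) := by
    rw [measureReal_def, Measure.pi_singleton, ENNReal.toReal_prod]
    exact Finset.prod_congr rfl fun x _ => coin_real (ω x)
  rw [h2]
  by_cases h : A ω <;> simp [h]

/-- Normalised sums of signs. -/
noncomputable def SS {V : Type} (n : ℕ) (ω : V × Fin n → Bool) (x : V) : ℝ :=
  (√n)⁻¹ * ∑ j, (if ω (x, j) then (1 : ℝ) else -1)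

lemma map_SS {V : Type} [Fintype V] (n : ℕ) :
    (Measure.pi fun _ : V × Fin n => coin).map (SS n) = Measure.pi fun _ : V => nu n := by
  have h1 : (SS n : (V × Fin n → Bool) → V → ℝ) = (XX n) ∘ (fun ω p => sg (ω p)) := by
    funext ω x
    simp only [SS, XX, g, Function.comp]
    congr 1
    refine Finset.sum_congr rfl fun j _ => ?_
    unfold sg
    by_cases h : ω (x, j) = true
    · simp [h, cl_one]
    · simp [h, cl_neg_one]
  have h2 : Measurable (fun (ω : V × Fin n → Bool) p => sg (ω p)) :=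
    measurable_pi_lambda _ fun p => sg_meas.comp (measurable_pi_apply p)
  rw [h1, ← Measure.map_map (XX_cont n).measurable h2,
    Measure.pi_map_pi (fun _ => sg_meas.aemeasurable)]
  simp only [map_sg]
  exact map_XX n

section

variable {d : ℕ}

/-- The set of approximately good configurations. -/
def FF (a B W : Lat d → ℝ) (L : Finset (Lat d)) (ε : ℝ) : Set (L → ℝ) :=
  {s | ∃ ψ : Lat d → ℝ, (∀ x, |ψ x - 1| ≤ B x) ∧
    ∀ x : L, |negLap ψ x.1 + (a x.1 * s x + W x.1) * ψ x.1| ≤ ε}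

lemma FF_closed (a B W : Lat d → ℝ) (L : Finset (Lat d)) (ε : ℝ) : IsClosed (FF a B W L ε) := by
  let K : Set (Lat d → ℝ) := Set.pi univ fun x => Icc (1 - B x) (1 + B x)
  have hK : IsCompact K := isCompact_univ_pi fun x => isCompact_Icc
  have : CompactSpace K := isCompact_iff_compactSpace.1 hK
  have h1 : FF a B W L ε = Prod.fst '' {p : (L → ℝ) × K | ∀ x : L,
      |negLap p.2.1 x.1 + (a x.1 * p.1 x + W x.1) * p.2.1 x.1| ≤ ε} := by
    ext s
    constructor
    · rintro ⟨ψ, h, h'⟩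
      refine ⟨(s, ⟨ψ, fun x _ => ?_⟩), h', rfl⟩
      have := abs_le.1 (h x)
      exact ⟨by linarith [this.1], by linarith [this.2]⟩
    · rintro ⟨⟨s', ψ⟩, h, rfl⟩
      refine ⟨ψ.1, fun x => ?_, h⟩
      have := ψ.2 x trivial
      rw [abs_le]
      exact ⟨by linarith [this.1], by linarith [this.2]⟩
  rw [h1]
  apply isClosedMap_fst_of_compactSpace
  have h2 : {p : (L → ℝ) × K | ∀ x : L,
      |negLap p.2.1 x.1 + (a x.1 * p.1 x + W x.1) * p.2.1 x.1| ≤ ε} =
      ⋂ x : L, {p : (L → ℝ) × K |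
        |negLap p.2.1 x.1 + (a x.1 * p.1 x + W x.1) * p.2.1 x.1| ≤ ε} := by
    ext p; simp
  rw [h2]
  refine isClosed_iInter fun x => isClosed_le ?_ continuous_const
  have hc : ∀ y : Lat d, Continuous fun p : (L → ℝ) × K => p.2.1 y := fun y =>
    (continuous_apply y).comp (continuous_subtype_val.comp continuous_snd)
  have hs : Continuous fun p : (L → ℝ) × K => p.1 x := (continuous_apply x).comp continuous_fst
  unfold negLap
  refine (Continuous.add ?_ ?_).abs
  · exact continuous_finsetSum _ fun i _ => ((continuous_const.mul (hc _)).sub (hc _)).sub (hc _)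
  · exact ((continuous_const.mul hs).add continuous_const).mul (hc _)

lemma nu_restrict {L L' : Finset (Lat d)} (h : L ⊆ L') (n : ℕ) :
    (Measure.pi fun _ : L' => nu n).map (Finset.restrict₂ (π := fun _ => ℝ) h) =
      Measure.pi fun _ : L => nu n := by
  have h1 : (Measure.infinitePi fun _ : Lat d => nu n).map
      (Finset.restrict (π := fun _ => ℝ) L') = Measure.pi fun _ : L' => nu n :=
    Measure.infinitePi_map_restrict (fun _ : Lat d => nu n)
  have h2 : (Measure.infinitePi fun _ : Lat d => nu n).map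
      (Finset.restrict (π := fun _ => ℝ) L) = Measure.pi fun _ : L => nu n :=
    Measure.infinitePi_map_restrict (fun _ : Lat d => nu n)
  rw [← h1, ← h2, Measure.map_map (Finset.measurable_restrict₂ h) (Finset.measurable_restrict L')]
  rfl

/-- The step from a finite box to a smaller box. -/
lemma step {a B W W0 : Lat d → ℝ} {L L' : Finset (Lat d)} (h : L ⊆ L') {δ ε : ℝ} {n : ℕ}
    (hB : ∀ x, 0 ≤ B x)
    (hW : ∀ x ∈ L, |W0 x - W x| * (1 + B x) ≤ ε)
    (hP : 1 - δ ≤ Pr (fun (_ : L' × Fin n) (_ : Bool) => (1 / 2 : ℝ))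
        (fun ω : L' × Fin n → Bool => ∃ ψ : Lat d → ℝ, (∀ x, |ψ x - 1| ≤ B x) ∧
          ∀ x : L', negLap ψ x.1
            + (a x.1 * ((√n)⁻¹ * ∑ j, (if ω (x, j) then (1 : ℝ) else -1)) + W x.1) * ψ x.1 = 0)) :
    1 - δ ≤ (Measure.pi fun _ : L => nu n).real (FF a B W0 L ε) := by
  classical
  rw [Pr_coin] at hP
  refine hP.trans ?_
  have hm1 : Measurable (SS n : (L' × Fin n → Bool) → L' → ℝ) := Measurable.of_discrete
  have hmr : Measurable (Finset.restrict₂ (π := fun _ : Lat d => ℝ) h) :=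
    Finset.measurable_restrict₂ (X := fun _ : Lat d => ℝ) h
  rw [← nu_restrict h n, ← map_SS (V := L') n, Measure.map_map hmr hm1,
    map_measureReal_apply (hmr.comp hm1) (FF_closed a B W0 L ε).measurableSet]
  refine measureReal_mono ?_ (measure_ne_top _ _)
  rintro ω ⟨ψ, h1, h2⟩
  refine ⟨ψ, h1, fun x => ?_⟩
  have h3 := h2 ⟨x.1, h x.2⟩
  have h4 : negLap ψ x.1 + (a x.1 * SS n ω ⟨x.1, h x.2⟩ + W x.1) * ψ x.1 = 0 := h3
  have h5 : negLap ψ x.1 + (a x.1 * SS n ω ⟨x.1, h x.2⟩ + W0 x.1) * ψ x.1 =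
      (W0 x.1 - W x.1) * ψ x.1 := by linarith
  change |negLap ψ x.1 + (a x.1 * SS n ω ⟨x.1, h x.2⟩ + W0 x.1) * ψ x.1| ≤ ε
  rw [h5, abs_mul]
  refine le_trans ?_ (hW x.1 x.2)
  refine mul_le_mul_of_nonneg_left ?_ (abs_nonneg _)
  have h6 := abs_le.1 (h1 x.1)
  rw [abs_le]
  exact ⟨by linarith [h6.1, hB x.1], by linarith [h6.2]⟩

/-- Passage to the Gaussian law on a finite box. -/
lemma gauss {L : Finset (Lat d)} {F : Set (L → ℝ)} (hF : IsClosed F) {δ : ℝ} (φ : ℕ → ℕ)
    (hφ : Tendsto φ atTop atTop)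
    (h : ∀ᶠ j in atTop, 1 - δ ≤ (Measure.pi fun _ : L => nu (φ j)).real F) :
    1 - δ ≤ (Measure.pi fun _ : L => gaussianReal 0 1).real F := by
  have hlim : Tendsto (fun n => ProbabilityMeasure.pi (fun _ : L => nuP n)) atTop
      (𝓝 (ProbabilityMeasure.pi (fun _ : L => gP))) := by
    have h1 : Tendsto (fun n => (fun _ : L => nuP n)) atTop (𝓝 (fun _ : L => gP)) := by
      rw [tendsto_pi_nhds]
      intro _
      exact tendsto_nu
    have h2 := (ProbabilityMeasure.continuous_pi (ι := L) (α := fun _ => ℝ)).tendsto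
      (fun _ : L => gP)
    exact h2.comp h1
  have h1 := ProbabilityMeasure.limsup_measure_closed_le_of_tendsto (hlim.comp hφ) hF
  have h2 : ENNReal.ofReal (1 - δ) ≤ atTop.limsup (fun j =>
      ((ProbabilityMeasure.pi (fun _ : L => nuP (φ j)) : ProbabilityMeasure (L → ℝ)) :
        Measure (L → ℝ)) F) := by
    refine le_limsup_of_frequently_le (Eventually.frequently ?_)
    filter_upwards [h] with j hj
    exact (ENNReal.ofReal_le_iff_le_toReal (measure_ne_top _ _)).2 hj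
  have h3 := h2.trans h1
  exact (ENNReal.ofReal_le_iff_le_toReal (measure_ne_top _ _)).1 h3

end

end Pool.Agent.W122.GS.LimitG

namespace Pool.Agent.W122.GS

open MeasureTheory ProbabilityTheory Filter Topology Set
open Pool.Agent.W122.DS Pool.Agent.W122.DS.Limit LimitG
open Pool.Agent.H4R2.AE.Gmgf (nu)

/-- **From sums of signs in finite volume to Gaussian disorder in infinite volume.** -/
theorem stmLimitG : StmLimitG := by
  intro d a B C δ ha hB hC hF Ω _ P _ ξ hm hi hg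
  classical
  let L : ℕ → Finset (Lat d) := fun n => Fintype.piFinset (fun _ => Finset.Icc (-(n : ℤ)) n)
  have hL : ∀ x : Lat d, ∀ᶠ n in atTop, x ∈ L (n + 1) := by
    intro x
    refine eventually_atTop.2 ⟨∑ i, (x i).natAbs, fun n hn => ?_⟩
    rw [Fintype.mem_piFinset]
    intro i
    have h1 : (x i).natAbs ≤ ∑ i, (x i).natAbs :=
      Finset.single_le_sum (f := fun i => (x i).natAbs) (fun _ _ => Nat.zero_le _)
        (Finset.mem_univ i)
    rw [Finset.mem_Icc]
    omega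
  have hLL : ∀ M N : ℕ, M ≤ N → L (M + 1) ⊆ L (N + 1) := by
    intro M N hMN x hx
    rw [Fintype.mem_piFinset] at hx ⊢
    intro i
    have := hx i
    rw [Finset.mem_Icc] at this ⊢
    omega
  have hF' : ∀ n : ℕ, ∃ W : Lat d → ℝ, (∀ x, |W x| ≤ C * a x ^ 2) ∧
      1 - δ ≤ Pr (fun (_ : L (n + 1) × Fin (n + 1)) (_ : Bool) => (1 / 2 : ℝ))
        (fun ω : L (n + 1) × Fin (n + 1) → Bool => ∃ ψ : Lat d → ℝ, (∀ x, |ψ x - 1| ≤ B x) ∧
          ∀ x : L (n + 1), negLap ψ x.1
            + (a x.1 * ((√((n + 1 : ℕ) : ℝ))⁻¹ * ∑ j, (if ω (x, j) then (1 : ℝ) else -1))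
              + W x.1) * ψ x.1 = 0) := by
    intro n
    exact hF (L (n + 1)) (n + 1) (Nat.succ_le_succ (Nat.zero_le n))
  choose W hW hWP using hF'
  have hK : IsCompact (Set.pi univ fun x : Lat d => Icc (-(C * a x ^ 2)) (C * a x ^ 2)) :=
    isCompact_univ_pi fun x => isCompact_Icc
  obtain ⟨W0, hW0, φ, hφ, hlim⟩ := hK.tendsto_subseq (x := W)
    (fun n x _ => abs_le.1 (hW n x))
  have hlim' : ∀ x, Tendsto (fun j => W (φ j) x) atTop (𝓝 (W0 x)) := by
    intro x
    exact (tendsto_pi_nhds.1 hlim) x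
  -- the Gaussian estimate
  have hG : ∀ (M : ℕ) (ε : ℝ), 0 < ε → 1 - δ ≤
      (Measure.pi fun _ : L (M + 1) => gaussianReal 0 1).real (FF a B W0 (L (M + 1)) ε) := by
    intro M ε hε
    refine gauss (FF_closed a B W0 (L (M + 1)) ε) (fun j => φ j + 1)
      ((tendsto_add_atTop_nat 1).comp hφ.tendsto_atTop) ?_
    have h1 : ∀ᶠ j in atTop, ∀ x ∈ L (M + 1), |W0 x - W (φ j) x| * (1 + B x) ≤ ε := by
      rw [Filter.eventually_all_finset]
      intro x _
      have h2 : Tendsto (fun j => |W0 x - W (φ j) x| * (1 + B x)) atTop (𝓝 0) := by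
        have h3 := (((hlim' x).const_sub (W0 x)).abs).mul_const (1 + B x)
        simpa using h3
      exact (h2.eventually_lt_const hε).mono fun j hj => hj.le
    filter_upwards [h1, hφ.tendsto_atTop.eventually (eventually_ge_atTop M)] with j hj1 hj2
    exact step (hLL M (φ j) hj2) hB hj1 (hWP (φ j))
  let T : ∀ M : ℕ, Ω → L (M + 1) → ℝ := fun M w x => ξ x.1 w
  have hT : ∀ M, Measurable (T M) := fun M => measurable_pi_lambda _ fun x => hm x.1
  have hTlaw : ∀ M, P.map (T M) = Measure.pi fun _ : L (M + 1) => gaussianReal 0 1 := by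
    intro M
    have h2 : iIndepFun (fun x : L (M + 1) => ξ x.1) P := hi.precomp Subtype.val_injective
    have h3 := (iIndepFun_iff_map_fun_eq_pi_map (fun x : L (M + 1) =>
      (hm x.1).aemeasurable)).1 h2
    refine h3.trans ?_
    congr 1
    funext x
    exact hg x.1
  have hE := limsup_prob P (fun M => T M ⁻¹' (FF a B W0 (L (M + 1)) (1 / ((M : ℝ) + 1))))
    (fun M => hT M (FF_closed a B W0 (L (M + 1)) _).measurableSet) δ (fun M => by
      rw [← map_measureReal_apply (hT M) (FF_closed a B W0 (L (M + 1)) _).measurableSet, hTlaw M]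
      exact hG M _ (by positivity))
  refine ⟨W0, fun x => abs_le.2 (hW0 x trivial), _, hE.1, hE.2, ?_⟩
  intro w hw
  have hfr : ∃ᶠ j in atTop, T j w ∈ FF a B W0 (L (j + 1)) (1 / ((j : ℝ) + 1)) := by
    rw [frequently_atTop]
    intro n
    obtain ⟨j, hj⟩ := mem_iUnion.1 (mem_iInter.1 hw n)
    obtain ⟨hj, hw⟩ := mem_iUnion.1 hj
    exact ⟨j, hj, hw⟩
  have hne : NeBot (atTop ⊓ 𝓟 {j | T j w ∈ FF a B W0 (L (j + 1)) (1 / ((j : ℝ) + 1))}) :=
    frequently_iff_neBot.1 hfr
  let U : Ultrafilter ℕ := Ultrafilter.of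
    (atTop ⊓ 𝓟 {j | T j w ∈ FF a B W0 (L (j + 1)) (1 / ((j : ℝ) + 1))})
  have hU : (U : Filter ℕ) ≤
      atTop ⊓ 𝓟 {j | T j w ∈ FF a B W0 (L (j + 1)) (1 / ((j : ℝ) + 1))} :=
    Ultrafilter.of_le _
  have hU1 : (U : Filter ℕ) ≤ atTop := hU.trans inf_le_left
  have hU2 : ∀ᶠ j in (U : Filter ℕ), T j w ∈ FF a B W0 (L (j + 1)) (1 / ((j : ℝ) + 1)) :=
    (hU.trans inf_le_right) (mem_principal_self _)
  have hex : ∀ j, ∃ ψ : Lat d → ℝ, (∀ x, |ψ x - 1| ≤ B x) ∧
      (T j w ∈ FF a B W0 (L (j + 1)) (1 / ((j : ℝ) + 1)) →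
        ∀ x : L (j + 1), |negLap ψ x.1 + (a x.1 * ξ x.1 w + W0 x.1) * ψ x.1| ≤
          1 / ((j : ℝ) + 1)) := by
    intro j
    by_cases h : T j w ∈ FF a B W0 (L (j + 1)) (1 / ((j : ℝ) + 1))
    · obtain ⟨ψ, h1, h2⟩ := h
      exact ⟨ψ, h1, fun _ => h2⟩
    · refine ⟨fun _ => 1, fun x => ?_, fun h' => absurd h' h⟩
      rw [sub_self, abs_zero]
      exact hB x
  choose ψ hψ1 hψ2 using hex
  have hK' : IsCompact (Set.pi univ fun x : Lat d => Icc (1 - B x) (1 + B x)) :=
    isCompact_univ_pi fun x => isCompact_Icc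
  obtain ⟨ψ0, hψ0, hUψ⟩ := hK'.ultrafilter_le_nhds (U.map ψ) (by
    rw [le_principal_iff]
    refine Ultrafilter.mem_map.2 (Filter.mem_of_superset (Filter.univ_mem (f := (U : Filter ℕ))) ?_)
    intro j _ x _
    have h := abs_le.1 (hψ1 j x)
    exact ⟨by linarith [h.1], by linarith [h.2]⟩)
  have hψt : ∀ x, Tendsto (fun j => ψ j x) (U : Filter ℕ) (𝓝 (ψ0 x)) := by
    have h : Tendsto ψ (U : Filter ℕ) (𝓝 ψ0) := hUψ
    exact fun x => (tendsto_pi_nhds.1 h) x
  refine ⟨ψ0, fun x => ?_, fun x => ?_⟩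
  · have h := hψ0 x trivial
    rw [abs_le]
    exact ⟨by linarith [h.1], by linarith [h.2]⟩
  · have h1 := tendsto_negLap hψt x
    have h5 := h1.add ((hψt x).const_mul (a x * ξ x w + W0 x))
    refine tendsto_nhds_unique h5 ?_
    have h6 : Tendsto (fun j : ℕ => 1 / ((j : ℝ) + 1)) (U : Filter ℕ) (𝓝 0) :=
      tendsto_one_div_add_atTop_nhds_zero_nat.mono_left hU1
    refine squeeze_zero_norm' ?_ h6
    filter_upwards [hU2, (hL x).filter_mono hU1] with j hj1 hj2
    rw [Real.norm_eq_abs]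
    exact hψ2 j hj1 ⟨x, hj2⟩

end Pool.Agent.W122.GS
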