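import Pool.Agent.W122.GS.Stm

/-!
# Gaussian disorder: sharpness of the order of the weights (by helper918)
-/

set_option autoImplicit false

namespace Pool.Agent.W122.GS

open MeasureTheory ProbabilityTheory Pool.Agent.W122.DS Filter Set
open scoped ENNReal Topology

section
variable {d : ℕ} (i₀ : Fin d)

/-- the sites used -/
def pt (n : ℕ) : Lat d := Pi.single i₀ (n : ℤ)

theorem pt_inj : Function.Injective (pt i₀) := by
  intro m n h
  have := congrFun h i₀
  simpa [pt] using this

theorem nsq_pt (n : ℕ) : nsq (pt i₀ n) = (n : ℝ) ^ 2 := by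
  classical
  unfold nsq pt
  rw [Finset.sum_eq_single i₀]
  · simp
  · intro j _ hj
    simp [Pi.single_eq_of_ne hj]
  · simp

theorem sqrt_nsq_pt (n : ℕ) : √(nsq (pt i₀ n)) = n := by
  rw [nsq_pt, Real.sqrt_sq (Nat.cast_nonneg n)]

end

/-- the Laplacian of the indicator function of a point -/
theorem negLap_ind {d : ℕ} (y : Lat d) :
    negLap (fun x => if x = y then (1 : ℝ) else 0) y = 2 * d := by
  classical
  unfold negLap
  have h : ∀ i : Fin d, (2 * (if y = y then (1 : ℝ) else 0) -
      (if y + Pi.single i 1 = y then (1 : ℝ) else 0) -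
      (if y - Pi.single i 1 = y then (1 : ℝ) else 0)) = 2 := by
    intro i
    have h1 : ¬ (y + Pi.single i 1 = y) := by
      intro h
      have := congrFun h i
      simp at this
    have h2 : ¬ (y - Pi.single i 1 = y) := by
      intro h
      have := congrFun h i
      simp at this
    rw [if_pos rfl, if_neg h1, if_neg h2]
    norm_num
  rw [Finset.sum_congr rfl fun i _ => h i, Finset.sum_const, Finset.card_univ, Fintype.card_fin,
    nsmul_eq_mul]
  ring

/-- Gaussian tail, lower bound -/
theorem gauss_lower {t : ℝ} (ht : 0 ≤ t) :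
    ENNReal.ofReal ((√(2 * Real.pi))⁻¹ * Real.exp (-(t ^ 2) - 1)) ≤
      gaussianReal 0 1 (Iic (-t)) := by
  have h1 : gaussianReal 0 1 (Icc (-t - 1) (-t)) ≤ gaussianReal 0 1 (Iic (-t)) :=
    measure_mono fun x hx => hx.2
  refine le_trans ?_ h1
  rw [gaussianReal_apply _ one_ne_zero]
  have h2 : ∫⁻ _ in Icc (-t - 1) (-t),
      ENNReal.ofReal ((√(2 * Real.pi))⁻¹ * Real.exp (-(t ^ 2) - 1)) ≤
      ∫⁻ x in Icc (-t - 1) (-t), gaussianPDF 0 1 x := by
    refine setLIntegral_mono' measurableSet_Icc fun x hx => ?_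
    unfold gaussianPDF
    apply ENNReal.ofReal_le_ofReal
    unfold gaussianPDFReal
    simp only [NNReal.coe_one, mul_one, sub_zero]
    refine mul_le_mul_of_nonneg_left ?_ (by positivity)
    apply Real.exp_le_exp.2
    have hx1 : -t - 1 ≤ x := hx.1
    have hx2 : x ≤ -t := hx.2
    have : x ^ 2 ≤ (t + 1) ^ 2 := by nlinarith
    nlinarith [sq_nonneg (t - 1)]
  refine le_trans (le_of_eq ?_) h2
  rw [setLIntegral_const, Real.volume_Icc]
  simp

theorem stmNegG : StmNegG := by
  classical
  intro d hd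
  refine ⟨2 * d + 1, by positivity, ?_⟩
  intro K C hK W hW Ω _ P _ ξ hm hind hg
  have hK0 : 0 < K := by
    have : (0 : ℝ) ≤ d := Nat.cast_nonneg d
    linarith
  set i₀ : Fin d := ⟨0, hd⟩ with hi₀
  set L : ℕ → ℝ := fun n => Real.log (Real.exp 1 + n) with hL
  have hLarg : ∀ n : ℕ, Real.exp 1 ≤ Real.exp 1 + n := fun n => by
    have : (0 : ℝ) ≤ n := Nat.cast_nonneg n
    linarith
  have hL1 : ∀ n, 1 ≤ L n := by
    intro n
    have := Real.log_le_log (Real.exp_pos 1) (hLarg n)
    rwa [Real.log_exp] at this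
  have hLt : Tendsto L atTop atTop := by
    refine Real.tendsto_log_atTop.comp ?_
    exact tendsto_atTop_add_const_left _ _ tendsto_natCast_atTop_atTop
  -- the events
  set A : ℕ → Set Ω := fun n => ξ (pt i₀ n) ⁻¹' Iic (-√(L n)) with hA
  have hAm : ∀ n, MeasurableSet (A n) := fun n => hm _ measurableSet_Iic
  have hAi : iIndepSet A P := by
    rw [iIndepSet_iff_meas_biInter hAm]
    intro S
    have h1 := hind.precomp (pt_inj i₀)
    exact h1.measure_inter_preimage_eq_mul S (sets := fun n => Iic (-√(L n)))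
      (fun n _ => measurableSet_Iic)
  have hAsum : ∑' n, P (A n) = ∞ := by
    set c : ℝ := (√(2 * Real.pi))⁻¹ * Real.exp (-1) with hc
    have hc0 : 0 < c := by positivity
    have h1 : ∀ n : ℕ, ENNReal.ofReal (c * (1 / ((n : ℝ) + 3))) ≤ P (A n) := by
      intro n
      have h2 : P (A n) = gaussianReal 0 1 (Iic (-√(L n))) := by
        rw [← hg (pt i₀ n), Measure.map_apply (hm _) measurableSet_Iic]
      rw [h2]
      refine le_trans ?_ (gauss_lower (Real.sqrt_nonneg _))
      apply ENNReal.ofReal_le_ofReal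
      have hLn : 0 ≤ L n := by linarith [hL1 n]
      rw [Real.sq_sqrt hLn, show -(L n) - 1 = -1 + -(L n) by ring, Real.exp_add, ← mul_assoc, ← hc]
      refine mul_le_mul_of_nonneg_left ?_ hc0.le
      have hpos : 0 < Real.exp 1 + n := (Real.exp_pos 1).trans_le (hLarg n)
      rw [Real.exp_neg, hL]
      simp only
      rw [Real.exp_log hpos, ← one_div]
      apply one_div_le_one_div_of_le hpos
      have := Real.exp_one_lt_d9
      linarith
    have h3 : ∑' n : ℕ, ENNReal.ofReal (c * (1 / ((n : ℝ) + 3))) = ∞ := by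
      by_contra h
      have h4 := ENNReal.summable_toReal h
      have h5 : Summable (fun n : ℕ => c * (1 / ((n : ℝ) + 3))) := by
        refine h4.congr fun n => ?_
        rw [ENNReal.toReal_ofReal (by positivity)]
      have h6 : Summable (fun n : ℕ => 1 / ((n : ℝ) + 3)) := by
        have := h5.mul_left c⁻¹
        refine this.congr fun n => ?_
        rw [← mul_assoc, inv_mul_cancel₀ hc0.ne', one_mul]
      have h7 : Summable (fun n : ℕ => 1 / (n : ℝ)) := by
        rw [← summable_nat_add_iff 3]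
        refine h6.congr fun n => ?_
        push_cast
        rfl
      exact Real.not_summable_one_div_natCast h7
    exact top_unique (h3 ▸ ENNReal.tsum_le_tsum h1)
  have hlim := measure_limsup_eq_one hAm hAi hAsum
  have hae : ∀ᵐ ω ∂P, ω ∈ limsup A atTop :=
    (mem_ae_iff_prob_eq_one (MeasurableSet.measurableSet_limsup hAm)).2 hlim
  filter_upwards [hae] with ω hω
  rw [mem_limsup_iff_frequently_mem] at hω
  -- the correction is small
  have hsmall : ∀ᶠ n in atTop, |W (pt i₀ n)| < 1 := by
    have h1 : Tendsto (fun n => C * K ^ 2 / L n) atTop (𝓝 0) :=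
      tendsto_const_nhds.div_atTop hLt
    filter_upwards [h1.eventually (gt_mem_nhds (show (0 : ℝ) < 1 by norm_num))] with n hn
    refine lt_of_le_of_lt (hW _) ?_
    rw [sqrt_nsq_pt]
    have hLn : 0 ≤ L n := by linarith [hL1 n]
    rw [div_pow, Real.sq_sqrt hLn, ← mul_div_assoc]
    exact hn
  intro R
  have hfar : ∀ᶠ n : ℕ in atTop, R ≤ (n : ℝ) ^ 2 := by
    have : Tendsto (fun n : ℕ => (n : ℝ) ^ 2) atTop atTop :=
      (tendsto_pow_atTop two_ne_zero).comp tendsto_natCast_atTop_atTop
    exact this.eventually_ge_atTop R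
  obtain ⟨n, hn, hn1, hn2⟩ := (hω.and_eventually (hsmall.and hfar)).exists
  refine ⟨{pt i₀ n}, fun x => if x = pt i₀ n then (1 : ℝ) else 0, ?_, ?_, ?_⟩
  · intro x hx
    rw [Finset.mem_singleton] at hx
    exact if_neg hx
  · intro x hx
    rw [Finset.mem_singleton] at hx
    rw [hx, nsq_pt]
    exact hn2
  · rw [Finset.sum_singleton, negLap_ind]
    simp only [if_true, one_mul, mul_one, sqrt_nsq_pt]
    have hξ : ξ (pt i₀ n) ω ≤ -√(L n) := hn
    have hs : 0 < √(L n) := Real.sqrt_pos.2 (by linarith [hL1 n])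
    have h1 : K / √(Real.log (Real.exp 1 + n)) * ξ (pt i₀ n) ω ≤ -K := by
      have h2 : K / √(L n) * ξ (pt i₀ n) ω ≤ K / √(L n) * (-√(L n)) :=
        mul_le_mul_of_nonneg_left hξ (by positivity)
      have h3 : K / √(L n) * (-√(L n)) = -K := by field_simp
      rw [h3] at h2
      exact h2
    have h4 := (abs_lt.1 hn1).2
    linarith

end Pool.Agent.W122.GS
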