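import Pool.Agent.W122.DS.Final
import Pool.Agent.W122.GS.FinV
import Pool.Agent.W122.GS.LimitG
import Pool.Agent.W122.GS.NegG

/-!
# Gaussian disorder: the theorem in infinite volume
-/

set_option autoImplicit false

namespace Pool.Agent.W122.GS

open MeasureTheory ProbabilityTheory Pool.Agent.W122.DS

theorem finalG (d : ℕ) (hd : 5 ≤ d) (δ : ℝ) (hδ : 0 < δ) :
    ∃ κ₀ C : ℝ, 0 < κ₀ ∧ 0 < C ∧ C * κ₀ ≤ 1 / 10 ∧ ∀ κ : ℝ, 0 < κ → κ ≤ κ₀ →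
      ∀ a : Lat d → ℝ, (∀ x, 0 ≤ a x) →
      (∀ x, a x ≤ κ / √(Real.log (Real.exp 1 + √(nsq x)))) →
      ∀ (Ω : Type) [MeasurableSpace Ω] (P : Measure Ω) [IsProbabilityMeasure P]
        (ξ : Lat d → Ω → ℝ), (∀ x, Measurable (ξ x)) → iIndepFun ξ P →
        (∀ x, P.map (ξ x) = gaussianReal 0 1) →
        ∃ W : Lat d → ℝ, (∀ x, |W x| ≤ C * a x ^ 2) ∧
          ∃ E : Set Ω, MeasurableSet E ∧ 1 - δ ≤ P.real E ∧ ∀ ω ∈ E,
            (∃ ψ : Lat d → ℝ, (∀ x, |ψ x - 1| ≤ C * κ) ∧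
              ∀ x, negLap ψ x + (a x * ξ x ω + W x) * ψ x = 0) ∧
            EdgeProps d C (fun x => a x * ξ x ω + W x) := by
  obtain ⟨η, C₀, κ₀, C, hη0, hη1, hC₀, hG, hκ₀, hC, hCκ, h⟩ :=
    finVolG stmTal stmES stmGreen W978.DS.stmLog W978.DS.stmSum hd δ hδ
  set C' : ℝ := max C C₀ with hC'
  have hC'1 : 1 ≤ C' := hC₀.trans (le_max_right _ _)
  have hC'0 : 0 < C' := by linarith
  have hCC' : C ≤ C' := le_max_left _ _
  refine ⟨min κ₀ (1 / (10 * C')), C', lt_min hκ₀ (by positivity), hC'0, ?_, ?_⟩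
  · calc C' * min κ₀ (1 / (10 * C')) ≤ C' * (1 / (10 * C')) :=
          mul_le_mul_of_nonneg_left (min_le_right _ _) hC'0.le
      _ = 1 / 10 := by field_simp
  intro κ hκ0 hκ1 a ha0 ha1 Ω _ P _ ξ hm hi hg
  have hκ2 : κ ≤ κ₀ := hκ1.trans (min_le_left _ _)
  have hfin := h κ hκ0 hκ2 a ha0 ha1
  obtain ⟨W, hW, E, hE, hPE, hψ⟩ := stmLimitG d a (fun _ => C * κ) C δ ha0
    (fun _ => by positivity) hC.le hfin Ω P ξ hm hi hg
  refine ⟨W, fun x => (hW x).trans (mul_le_mul_of_nonneg_right hCC' (sq_nonneg _)), E, hE, hPE,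
    fun ω hω => ?_⟩
  obtain ⟨ψ, h1, h2⟩ := hψ ω hω
  have hη : ∀ x, |ψ x - 1| ≤ η := fun x => (h1 x).trans
    ((mul_le_mul_of_nonneg_left hκ2 hC.le).trans hCκ)
  refine ⟨⟨ψ, fun x => (h1 x).trans (mul_le_mul_of_nonneg_right hCC' hκ0.le), h2⟩, ?_⟩
  have hedge := W978.DS.stmEdge d η C₀ (by omega) hη0 hη1 hC₀ hG
    (fun x => a x * ξ x ω + W x) ψ hη h2
  refine ⟨hedge.1, hedge.2.1, fun E u hu he x => (hedge.2.2 E u hu he x).trans ?_⟩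
  have h3 : 0 ≤ ∑' y, u y ^ 2 := tsum_nonneg fun y => sq_nonneg _
  have h4 : C₀ ≤ C' := le_max_right _ _
  refine mul_le_mul_of_nonneg_right (mul_le_mul_of_nonneg_right h4 (sq_nonneg _)) h3

end Pool.Agent.W122.GS
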