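import Pool.Agent.W122.DS.Core
import Pool.Agent.W122.GS.Conc

/-!
# The choice of the counterterm by a fixed point argument
-/

set_option autoImplicit false
set_option linter.unusedSectionVars false

namespace Pool.Agent.W122.GS

open Pool.Agent.W122.DS Pool.Agent.W122.DS.Core

variable {V S J : Type} [Fintype V] [DecidableEq V] [Fintype S] [DecidableEq S] [Fintype J]
  [DecidableEq J] [Nonempty V]
variable {A : V → V → ℝ} {b : V → ℝ} {η : ℝ}
variable {a : V → ℝ} {Cs : ℝ} {ρ τ k : V → ℝ} {c : J → ℝ} {p v : V × J → S → ℝ}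

lemma cont_Ex (Φ : (V → ℝ) → ℝ) (hΦ : Continuous (ext A b η Φ)) (f : (V × J → S) → ℝ) :
    Continuous (fun w : (V → ℝ) × ℝ =>
      Ex p (fun ω => f ω * ext A b η Φ (pot a c v w.1 (cl w.2) ω))) := by
  unfold Ex
  refine continuous_finsetSum _ fun ω _ => ?_
  refine continuous_const.mul (continuous_const.mul (hΦ.comp ?_))
  unfold pot
  refine continuous_pi fun x => ?_
  have := cont_cl
  fun_prop

/-- The mass of the cut-off. -/
noncomputable def qv (A : V → V → ℝ) (b : V → ℝ) (η : ℝ) (a : V → ℝ) (c : J → ℝ) (p v : V × J → S → ℝ)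
    (W : V → ℝ) (l : ℝ) : ℝ := Ex p (fun ω => 1 * ext A b η (th η) (pot a c v W l ω))

/-- The truncated mean of the solution. -/
noncomputable def mv (A : V → V → ℝ) (b : V → ℝ) (η : ℝ) (a : V → ℝ) (c : J → ℝ) (p v : V × J → S → ℝ)
    (W : V → ℝ) (l : ℝ) (x : V) : ℝ := Ex p (fun ω => 1 * ext A b η (thv η x) (pot a c v W l ω))

/-- The truncated correlation of the solution with the disorder. -/
noncomputable def nv (A : V → V → ℝ) (b : V → ℝ) (η : ℝ) (a : V → ℝ) (c : J → ℝ) (p v : V × J → S → ℝ)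
    (W : V → ℝ) (l : ℝ) (x : V) : ℝ :=
  Ex p (fun ω => dis c v ω x * ext A b η (thv η x) (pot a c v W l ω))

lemma cont_th' (h : Hyp A b η a Cs ρ τ k c p v) : Continuous (ext A b η (th η)) :=
  cont_ext h.net h.η0 h.η2 _ cont_th fun _ hψ => th_zero h.η0 hψ

lemma cont_thv' (h : Hyp A b η a Cs ρ τ k c p v) (x : V) : Continuous (ext A b η (thv η x)) :=
  cont_ext h.net h.η0 h.η2 _ (cont_thv x) fun _ hψ => thv_zero h.η0 x hψ

/-- The fixed point. -/
lemma fixed (h : Hyp A b η a Cs ρ τ k c p v) : ∃ (W : V → ℝ) (l : ℝ), 0 ≤ l ∧ l ≤ 1 ∧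
    (∀ x, W x = -(l * (a x * nv A b η a c p v W l x)) / max (mv A b η a c p v W l x) (1 / 8)) ∧
    l = cl (8 * (qv A b η a c p v W l - 1 / 2)) := by
  have hη := h.η0
  have hC := h.Cs1
  set T : (V → ℝ) × ℝ → (V → ℝ) × ℝ := fun w =>
    (fun x => -(cl w.2 * (a x * nv A b η a c p v w.1 (cl w.2) x))
      / max (mv A b η a c p v w.1 (cl w.2) x) (1 / 8),
      cl (8 * (qv A b η a c p v w.1 (cl w.2) - 1 / 2))) with hT
  have hcont : Continuous T := by
    have h1 : Continuous (fun w : (V → ℝ) × ℝ => qv A b η a c p v w.1 (cl w.2)) :=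
      cont_Ex _ (cont_th' h) _
    have h2 : ∀ x, Continuous (fun w : (V → ℝ) × ℝ => mv A b η a c p v w.1 (cl w.2) x) :=
      fun x => cont_Ex _ (cont_thv' h x) _
    have h3 : ∀ x, Continuous (fun w : (V → ℝ) × ℝ => nv A b η a c p v w.1 (cl w.2) x) :=
      fun x => cont_Ex _ (cont_thv' h x) _
    have hcl := cont_cl
    refine Continuous.prodMk (continuous_pi fun x => ?_) ?_
    · refine Continuous.div ?_ ((h2 x).max continuous_const) fun w => ?_
      · have h4 := h3 x
        fun_prop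
      · have : (1 / 8 : ℝ) ≤ max (mv A b η a c p v w.1 (cl w.2) x) (1 / 8) := le_max_right _ _
        linarith
    · exact hcl.comp (continuous_const.mul (h1.sub continuous_const))
  have hR : ∀ w, ‖T w‖ ≤ 1 + ∑ x, 360 / η * (Cs * a x ^ 2) := by
    intro w
    have hs : 0 ≤ ∑ x, 360 / η * (Cs * a x ^ 2) :=
      Finset.sum_nonneg fun x _ => by positivity
    rw [Prod.norm_def]
    refine max_le ?_ ?_
    · rw [pi_norm_le_iff_of_nonneg (by linarith)]
      intro x
      have h1 := corr_bound h w.1 (cl_nonneg w.2) (cl_le_one w.2) x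
      have h2 : (1 / 8 : ℝ) ≤ max (mv A b η a c p v w.1 (cl w.2) x) (1 / 8) := le_max_right _ _
      have h3 : |(-(cl w.2 * (a x * nv A b η a c p v w.1 (cl w.2) x))
        / max (mv A b η a c p v w.1 (cl w.2) x) (1 / 8))| ≤ 360 / η * (Cs * a x ^ 2) := by
        rw [abs_div, abs_neg, abs_mul, abs_mul, abs_of_nonneg (cl_nonneg _),
          abs_of_nonneg (h.a0 x), abs_of_pos (by linarith : (0 : ℝ)
            < max (mv A b η a c p v w.1 (cl w.2) x) (1 / 8)), div_le_iff₀ (by linarith)]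
        have h4 : cl w.2 * (a x * |nv A b η a c p v w.1 (cl w.2) x|)
            ≤ 1 * (a x * (45 / η * (a x * Cs))) := by
          refine mul_le_mul (cl_le_one _) (mul_le_mul_of_nonneg_left h1 (h.a0 x))
            (mul_nonneg (h.a0 x) (abs_nonneg _)) zero_le_one
        have h5 : 360 / η * (Cs * a x ^ 2) * (1 / 8) ≤ 360 / η * (Cs * a x ^ 2)
            * max (mv A b η a c p v w.1 (cl w.2) x) (1 / 8) :=
          mul_le_mul_of_nonneg_left h2 (by positivity)
        refine h4.trans (le_trans (le_of_eq ?_) h5)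
        ring
      rw [Real.norm_eq_abs]
      refine h3.trans ?_
      have h6 := Finset.single_le_sum (f := fun x => 360 / η * (Cs * a x ^ 2))
        (fun y _ => by positivity) (Finset.mem_univ x)
      linarith
    · rw [Real.norm_eq_abs, abs_of_nonneg (cl_nonneg _)]
      have := cl_le_one (8 * (qv A b η a c p v w.1 (cl w.2) - 1 / 2))
      linarith
  obtain ⟨⟨W, t⟩, hfix⟩ := Pool.Agent.Helper133.Brouwer.brouwer T hcont _ hR
  have h1 : (fun x => -(cl t * (a x * nv A b η a c p v W (cl t) x))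
      / max (mv A b η a c p v W (cl t) x) (1 / 8)) = W := congrArg Prod.fst hfix
  have h2 : cl (8 * (qv A b η a c p v W (cl t) - 1 / 2)) = t := congrArg Prod.snd hfix
  refine ⟨W, cl t, cl_nonneg _, cl_le_one _, fun x => (congrFun h1 x).symm, ?_⟩
  rw [h2]
  rw [← h2, cl_cl, h2]

end Pool.Agent.W122.GS
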