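import Pool.Agent.W122.GS.Final
import Pool.Agent.W122.GS.Defs

/-!
# Gaussian disorder at the upper band edge
-/

set_option autoImplicit false

namespace Pool.Agent.W122.GS

open MeasureTheory ProbabilityTheory Pool.Agent.W122.DS

lemma neg_law {Ω : Type} [MeasurableSpace Ω] {P : Measure Ω} {f : Ω → ℝ} (hf : Measurable f)
    (h : P.map f = gaussianReal 0 1) : P.map (fun ω => -f ω) = gaussianReal 0 1 := by
  have h1 : P.map (fun ω => -f ω) = (P.map f).map (fun x => -x) := by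
    rw [Measure.map_map (by fun_prop) hf]
    rfl
  rw [h1, h, gaussianReal_map_neg, neg_zero]

theorem topG (d : ℕ) (hd : 5 ≤ d) (δ : ℝ) (hδ : 0 < δ) :
    ∃ κ₀ C : ℝ, 0 < κ₀ ∧ 0 < C ∧ C * κ₀ ≤ 1 / 10 ∧ ∀ κ : ℝ, 0 < κ → κ ≤ κ₀ →
      ∀ a : Lat d → ℝ, (∀ x, 0 ≤ a x) →
      (∀ x, a x ≤ κ / √(Real.log (Real.exp 1 + √(nsq x)))) →
      ∀ (Ω : Type) [MeasurableSpace Ω] (P : Measure Ω) [IsProbabilityMeasure P]
        (ξ : Lat d → Ω → ℝ), (∀ x, Measurable (ξ x)) → iIndepFun ξ P →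
        (∀ x, P.map (ξ x) = gaussianReal 0 1) →
        ∃ W : Lat d → ℝ, (∀ x, |W x| ≤ C * a x ^ 2) ∧
          ∃ E : Set Ω, MeasurableSet E ∧ 1 - δ ≤ P.real E ∧ ∀ ω ∈ E,
            (∃ ψ : Lat d → ℝ, (∀ x, |ψ x - 1| ≤ C * κ) ∧
              ∀ x, adj ψ x + (a x * ξ x ω + W x) * ψ x = 2 * d * ψ x) ∧
            TopProps d C (fun x => a x * ξ x ω + W x) := by
  obtain ⟨κ₀, C, h1, h2, h3, h4⟩ := finalG d hd δ hδ
  refine ⟨κ₀, C, h1, h2, h3, fun κ hκ0 hκ1 a ha0 ha1 Ω _ P _ ξ hm hi hg => ?_⟩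
  have hi' : iIndepFun (fun x ω => -ξ x ω) P :=
    hi.comp (fun _ t => -t) (fun _ => measurable_neg)
  obtain ⟨W, hW, E, hE, hPE, h⟩ := h4 κ hκ0 hκ1 a ha0 ha1 Ω P (fun x ω => -ξ x ω)
    (fun x => (hm x).neg) hi' (fun x => neg_law (hm x) (hg x))
  refine ⟨fun x => -W x, fun x => by rw [abs_neg]; exact hW x, E, hE, hPE, fun ω hω => ?_⟩
  obtain ⟨⟨ψ, h5, h6⟩, h7⟩ := h ω hω
  refine ⟨⟨ψ, h5, fun x => ?_⟩, top_of_edge ?_⟩
  · have h8 := h6 x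
    rw [negLap_eq] at h8
    linarith
  · have e : (fun x => -(a x * ξ x ω + -W x)) = fun x => a x * -ξ x ω + W x := by
      funext x
      ring
    rw [e]
    exact h7

theorem topNegG (d : ℕ) (hd : 1 ≤ d) : ∃ K₀ : ℝ, 0 < K₀ ∧ ∀ (K C : ℝ), K₀ ≤ K →
    ∀ (W : Lat d → ℝ), (∀ x, |W x| ≤ C * (K / √(Real.log (Real.exp 1 + √(nsq x)))) ^ 2) →
    ∀ (Ω : Type) [MeasurableSpace Ω] (P : Measure Ω) [IsProbabilityMeasure P]
      (ξ : Lat d → Ω → ℝ), (∀ x, Measurable (ξ x)) → iIndepFun ξ P →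
      (∀ x, P.map (ξ x) = gaussianReal 0 1) →
      ∀ᵐ ω ∂P, AboveFar d
        (fun x => K / √(Real.log (Real.exp 1 + √(nsq x))) * ξ x ω + W x) := by
  obtain ⟨K₀, h0, h⟩ := stmNegG d hd
  refine ⟨K₀, h0, fun K C hK W hW Ω _ P _ ξ hm hi hg => ?_⟩
  have hi' : iIndepFun (fun x ω => -ξ x ω) P :=
    hi.comp (fun _ t => -t) (fun _ => measurable_neg)
  have h1 := h K C hK (fun x => -W x) (fun x => by rw [abs_neg]; exact hW x) Ω P
    (fun x ω => -ξ x ω) (fun x => (hm x).neg) hi' (fun x => neg_law (hm x) (hg x))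
  filter_upwards [h1] with ω hω R
  obtain ⟨Λ, u, h2, h3, h4⟩ := hω R
  refine ⟨Λ, u, h2, h3, ?_⟩
  have h5 : ∑ x ∈ Λ, u x * (negLap u x + (K / √(Real.log (Real.exp 1 + √(nsq x))) * -ξ x ω
      + -W x) * u x) = 2 * d * ∑ x ∈ Λ, u x ^ 2 - ∑ x ∈ Λ, u x * (adj u x
        + (K / √(Real.log (Real.exp 1 + √(nsq x))) * ξ x ω + W x) * u x) := by
    rw [Finset.mul_sum, ← Finset.sum_sub_distrib]
    refine Finset.sum_congr rfl fun x _ => ?_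
    rw [negLap_eq]
    ring
  rw [h5] at h4
  linarith

end Pool.Agent.W122.GS
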